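import Mathlib

/-!
# Statements for the geometric part of the proof of the theorem on multiple mixing
-/

set_option autoImplicit false
open MeasureTheory Filter Topology
open scoped ENNReal

namespace Pool.Agent.Y476.RM

/-- The circle `ℝ / ℤ`. -/
abbrev TT : Type := AddCircle (1 : ℝ)

/-- The third coordinate `z = - x - y`. -/
def zz (p : TT × TT) : TT := -p.1 - p.2

/-- The translate of `θ` by `s` is at distance at most `ε` from `θ` (tested on continuous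
functions bounded by one). -/
def TD {G : Type} [TopologicalSpace G] [Add G] [MeasurableSpace G] (θ : Measure G) (s : G)
    (ε : ℝ) : Prop :=
  ∀ φ : C(G, ℝ), (∀ x, |φ x| ≤ 1) → |∫ x, φ (x + s) ∂θ - ∫ x, φ x ∂θ| ≤ ε

/-- `θ` is rigid along `s`. -/
def Rig {G : Type} [TopologicalSpace G] [Add G] [MeasurableSpace G] {ι : Type} (l : Filter ι)
    (s : ι → G) (θ : Measure G) : Prop :=
  ∀ ε : ℝ, 0 < ε → ∀ᶠ i in l, TD θ (s i) ε

/-- Rigidity passes to absolutely continuous measures. -/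
def S_R1 : Prop := ∀ (G : Type) [NormedAddCommGroup G] [CompactSpace G] [MeasurableSpace G]
    [BorelSpace G] (ι : Type) (l : Filter ι) (s : ι → G) (θ θ' : Measure G)
    [IsFiniteMeasure θ] [IsFiniteMeasure θ'],
    Rig l s θ → Tendsto s l (𝓝 0) → θ' ≪ θ → Rig l s θ'

/-- Maximal rigid set. -/
def S_MAX : Prop := ∀ (G : Type) [NormedAddCommGroup G] [CompactSpace G] [MeasurableSpace G]
    [BorelSpace G] (ι : Type) (l : Filter ι) (s : ι → G) (_ : Tendsto s l (𝓝 0))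
    (ν : Measure G) [IsFiniteMeasure ν],
    ∃ R : Set G, MeasurableSet R ∧ Rig l s (ν.restrict R) ∧
      ∀ θ : Measure G, IsFiniteMeasure θ → θ ≪ ν → Rig l s θ → θ Rᶜ = 0

/-- Existence of an irreducible piece of the common factor of `Y` and `Z`. -/
def S_ATOM : Prop := ∀ (Ω α β : Type) [MeasurableSpace Ω] [MeasurableSpace α] [MeasurableSpace β]
    (P : Measure Ω) [IsFiniteMeasure P] (Y : Ω → α) (Z : Ω → β), Measurable Y → Measurable Z →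
    P ≠ 0 → P.map (fun ω => (Y ω, Z ω)) ≪ (P.map Y).prod (P.map Z) →
    ∃ (B0 : Set α) (C0 : Set β), MeasurableSet B0 ∧ MeasurableSet C0 ∧
      (∀ᵐ ω ∂P, Y ω ∈ B0 ↔ Z ω ∈ C0) ∧ 0 < P (Y ⁻¹' B0) ∧
      ∀ (B : Set α) (C : Set β), MeasurableSet B → MeasurableSet C →
        (∀ᵐ ω ∂P, Y ω ∈ B ↔ Z ω ∈ C) → P (Y ⁻¹' (B0 ∩ B)) = 0 ∨ P (Y ⁻¹' (B0 \ B)) = 0

/-- Densities of the three coordinate pairs and the relation between the conditional laws. -/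
def S_DIS : Prop := ∀ (P : Measure (TT × TT)) [IsFiniteMeasure P],
    P ≪ (P.map Prod.fst).prod (P.map Prod.snd) →
    P.map (fun p => (p.1, zz p)) ≪ (P.map Prod.fst).prod (P.map zz) →
    ∃ f h : TT → TT → ℝ≥0∞, Measurable (Function.uncurry f) ∧ Measurable (Function.uncurry h) ∧
      P = ((P.map Prod.fst).prod (P.map Prod.snd)).withDensity (Function.uncurry f) ∧
      P.map (fun p => (p.1, zz p)) =
        ((P.map Prod.fst).prod (P.map zz)).withDensity (Function.uncurry h) ∧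
      ∀ᵐ x ∂(P.map Prod.fst),
        ((P.map Prod.snd).withDensity (f x)).map (fun y => -x - y)
          = (P.map zz).withDensity (h x)

/-- Lusin type property for the sections of an integrable function. -/
def S_LUSIN : Prop := ∀ (X Y : Type) [MetricSpace X] [CompactSpace X] [MeasurableSpace X]
    [BorelSpace X] [MetricSpace Y] [CompactSpace Y] [MeasurableSpace Y] [BorelSpace Y]
    (ν : Measure X) (ν' : Measure Y) [IsFiniteMeasure ν] [IsFiniteMeasure ν'] (f : X → Y → ℝ≥0∞),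
    Measurable (Function.uncurry f) → ∫⁻ p, Function.uncurry f p ∂(ν.prod ν') ≠ ∞ →
    ∀ δ : ℝ≥0∞, 0 < δ → ∃ A : Set X, MeasurableSet A ∧ ν Aᶜ ≤ δ ∧
      (∀ x ∈ A, ∫⁻ y, f x y ∂ν' ≠ ∞) ∧
      ∀ ε : ℝ, 0 < ε → ∃ η : ℝ, 0 < η ∧ ∀ x ∈ A, ∀ x' ∈ A, dist x x' < η →
        ∫ y, |(f x y).toReal - (f x' y).toReal| ∂ν' ≤ ε

/-- Translations in `A - A` are exactly the small translations which do not move `ν` much:
then `ν` is absolutely continuous. -/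
def S_CLOSE : Prop := ∀ (ν : Measure TT) [IsFiniteMeasure ν] (A : Set TT), A.Infinite →
    (∀ ε : ℝ, 0 < ε → ∃ η : ℝ, 0 < η ∧ ∀ x ∈ A, ∀ x' ∈ A, ‖x - x'‖ < η → TD ν (x - x') ε) →
    (∃ η δ : ℝ, 0 < η ∧ 0 < δ ∧ ∀ t : TT, ‖t‖ < η → TD ν t δ → ∃ x ∈ A, ∃ x' ∈ A, t = x - x') →
    ν ≪ (volume : Measure TT)

/-- Small translations which do not move `ν` much belong to `A - A`. -/
def S_F4 : Prop := ∀ (ν ν' : Measure TT) [IsFiniteMeasure ν] [IsFiniteMeasure ν'] (A : Set TT),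
    MeasurableSet A → (ν.prod ν') {p | -p.1 - p.2 ∈ A} ≠ 0 →
    ∃ η δ : ℝ, 0 < η ∧ 0 < δ ∧ ∀ t : TT, ‖t‖ < η → TD ν t δ → ∃ x ∈ A, ∃ x' ∈ A, t = x - x'

/-- Uniqueness of Fourier coefficients on the two dimensional torus. -/
def S_UNIQ : Prop := ∀ (m : Measure (TT × TT)) [IsFiniteMeasure m] (u : TT × TT → ℂ),
    Integrable u m →
    (∀ a b : ℤ, ∫ w, (fourier a w.1 : ℂ) * (fourier b w.2 : ℂ) * u w ∂m = 0) →
    u =ᵐ[m] 0

/-- Representation of a bounded functional on trigonometric polynomials. -/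
def S_RIESZ : Prop := ∀ (σ σ' : Measure TT) [IsFiniteMeasure σ] [IsFiniteMeasure σ'] (ι : Type)
    (u v : ι → ℤ) (C : ι → ℂ) (K : ℝ),
    (∀ (s : Finset ι) (c : ι → ℂ), ‖∑ i ∈ s, c i * C i‖ ^ 2 ≤
      K * (∑ i ∈ s, ∑ j ∈ s, c i * (starRingEnd ℂ) (c j) *
        (∫ x, (fourier (u i - u j) x : ℂ) ∂σ) * (∫ x, (fourier (v i - v j) x : ℂ) ∂σ')).re) →
    ∃ ψ : TT × TT → ℂ, Measurable ψ ∧ Integrable ψ (σ.prod σ') ∧ ∀ i, C i =
      ∫ w, (fourier (u i) w.1 : ℂ) * (fourier (v i) w.2 : ℂ) * ψ w ∂(σ.prod σ')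

/-- The geometric lemma. -/
def S_GHL : Prop := ∀ (P : Measure (TT × TT)) [IsFiniteMeasure P] (ν₁ ν₂ ν₃ : Measure TT)
    [IsFiniteMeasure ν₁] [IsFiniteMeasure ν₂] [IsFiniteMeasure ν₃], (∀ x, ν₁ {x} = 0) →
    P ≪ ν₁.prod ν₂ → P.map (fun p => (p.1, zz p)) ≪ ν₁.prod ν₃ →
    P.map (fun p => (p.2, zz p)) ≪ ν₂.prod ν₃ → P.map zz ≪ (volume : Measure TT)

/-- The analytic lemma. -/
def S_AHL : Prop := ∀ (σ₁ σ₂ σ₃ : Measure TT) [IsFiniteMeasure σ₁] [IsFiniteMeasure σ₂]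
    [IsFiniteMeasure σ₃] (N : Set TT) (C : ℤ → ℤ → ℂ) (K : ℝ), (∀ x, σ₁ {x} = 0) →
    MeasurableSet N → (volume : Measure TT) N = 0 → σ₃ Nᶜ = 0 →
    (∀ (s : Finset (ℤ × ℤ)) (c : ℤ × ℤ → ℂ), ‖∑ i ∈ s, c i * C i.1 i.2‖ ^ 2 ≤
      K * (∑ i ∈ s, ∑ j ∈ s, c i * (starRingEnd ℂ) (c j) *
        (∫ x, (fourier (i.1 - j.1) x : ℂ) ∂σ₁) * (∫ x, (fourier (i.2 - j.2) x : ℂ) ∂σ₂)).re) →
    (∀ (s : Finset (ℤ × ℤ)) (c : ℤ × ℤ → ℂ), ‖∑ i ∈ s, c i * C i.1 i.2‖ ^ 2 ≤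
      K * (∑ i ∈ s, ∑ j ∈ s, c i * (starRingEnd ℂ) (c j) *
        (∫ x, (fourier ((i.1 - i.2) - (j.1 - j.2)) x : ℂ) ∂σ₁) *
        (∫ x, (fourier (-i.2 - -j.2) x : ℂ) ∂σ₃)).re) →
    (∀ (s : Finset (ℤ × ℤ)) (c : ℤ × ℤ → ℂ), ‖∑ i ∈ s, c i * C i.1 i.2‖ ^ 2 ≤
      K * (∑ i ∈ s, ∑ j ∈ s, c i * (starRingEnd ℂ) (c j) *
        (∫ x, (fourier ((i.2 - i.1) - (j.2 - j.1)) x : ℂ) ∂σ₂) *
        (∫ x, (fourier (-i.1 - -j.1) x : ℂ) ∂σ₃)).re) →
    ∀ a b, C a b = 0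

/-- A vector orthogonal to all vectors with singular spectral measure has an absolutely continuous
spectral measure. -/
def S_SPEC.{u} : Prop := ∀ (H : Type u) [NormedAddCommGroup H] [InnerProductSpace ℂ H]
    [CompleteSpace H] (U : H ≃ₗᵢ[ℂ] H) (v : H),
    (∀ (g : H) (σ : Measure TT) (N : Set TT), IsFiniteMeasure σ →
      (∀ n : ℤ, ∫ x, (fourier n x : ℂ) ∂σ = inner ℂ g ((U ^ n) g)) →
      MeasurableSet N → (volume : Measure TT) N = 0 → σ Nᶜ = 0 → inner ℂ g v = 0) →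
    ∃ σ : Measure TT, IsFiniteMeasure σ ∧ σ ≪ (volume : Measure TT) ∧
      ∀ n : ℤ, ∫ x, (fourier n x : ℂ) ∂σ = inner ℂ v ((U ^ n) v)

end Pool.Agent.Y476.RM
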