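import Pool.Agent.H716R2.MixK
import Pool.Agent.Y476.RM.Stm

/-!
# Statements for the dynamical part of the theorem on multiple mixing
-/

set_option autoImplicit false
open MeasureTheory Filter Topology
open scoped ENNReal

namespace Pool.Agent.Y476.RM

open Pool.Agent.H716R2

/-- `f` has an absolutely continuous spectral measure: its correlation sequence is the sequence of
Fourier coefficients of a real integrable function on `[0, 1]`. -/
def ACf {X : Type*} [MeasurableSpace X] (μ : Measure X) (T : X → X) (f : X → ℂ) : Prop :=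
  ∃ g : ℝ → ℝ, IntervalIntegrable g volume 0 1 ∧ ∀ n : ℕ,
    ∫ x, f (T^[n] x) * (starRingEnd ℂ) (f x) ∂μ =
      ∫ t in (0 : ℝ)..1, (g t : ℂ) * Complex.exp (2 * Real.pi * Complex.I * n * t)

/-- The factor generated by the bounded functions with absolutely continuous spectral measure. -/
@[reducible] def acAlg {X : Type*} [MeasurableSpace X] (μ : Measure X) (T : X → X) : MeasurableSpace X :=
  MeasurableSpace.generateFrom {E | ∃ f : X → ℂ, Measurable f ∧ (∃ C : ℝ, ∀ x, ‖f x‖ ≤ C) ∧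
    ACf μ T f ∧ ∃ B : Set ℂ, MeasurableSet B ∧ f ⁻¹' B = E}

/-- Mixing of multiplicity `k` on a sub-σ-algebra `m`. -/
def MixOn {X : Type*} [MeasurableSpace X] (μ : Measure X) (T : X → X) (k : ℕ)
    (m : MeasurableSpace X) : Prop :=
  ∀ A : ℕ → Set X, (∀ i, MeasurableSet[m] (A i)) → ∀ ε : ℝ, 0 < ε →
    ∃ N : ℕ, ∀ m : ℕ → ℕ, (∀ j < k, N ≤ m j) →
      |μ.real (⋂ i ∈ Finset.range (k + 1), T^[∑ j ∈ Finset.range i, m j] ⁻¹' A i)
        - ∏ i ∈ Finset.range (k + 1), μ.real (A i)| < ε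

/-- A finite measure whose Fourier coefficients tend to zero has no atoms. -/
def S_WIEN : Prop := ∀ (σ : Measure TT) [IsFiniteMeasure σ],
    Tendsto (fun n : ℕ => ∫ x, (fourier (n : ℤ) x : ℂ) ∂σ) atTop (𝓝 0) → ∀ x, σ {x} = 0

/-- Products of Fourier coefficients are Fourier coefficients of a measure. -/
def S_CONV : Prop := ∀ (ι : Type) (S : Finset ι) (σ : ι → Measure TT),
    (∀ i, IsFiniteMeasure (σ i)) → ∃ τ : Measure TT, IsFiniteMeasure τ ∧
      ∀ n : ℤ, ∫ x, (fourier n x : ℂ) ∂τ = ∏ i ∈ S, ∫ x, (fourier n x : ℂ) ∂(σ i)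

/-- Densities on the circle and on the unit interval. -/
def S_DENS : Prop := ∀ (σ : Measure TT) [IsFiniteMeasure σ], σ ≪ (volume : Measure TT) →
    ∃ g : ℝ → ℝ, IntervalIntegrable g volume 0 1 ∧ ∀ n : ℕ,
      ∫ x, (fourier (n : ℤ) x : ℂ) ∂σ =
        ∫ t in (0 : ℝ)..1, (g t : ℂ) * Complex.exp (2 * Real.pi * Complex.I * n * t)

/-- The quadratic mean of a sum of products of functions along spread out times. -/
def S_QF.{u} : Prop := ∀ (X : Type u) [MeasurableSpace X] (μ : Measure X) [IsProbabilityMeasure μ]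
    (T : X ≃ᵐ X), MeasurePreserving T μ μ → ∀ (r : ℕ), FactSet μ T r →
    ∀ (s : ℕ → Fin (r + 1) → ℕ), Spread s → ∀ (ι : Type) (F : ι → Fin (r + 1) → X → ℂ),
    (∀ i j, Measurable (F i j)) → (∀ i j, ∃ C : ℝ, ∀ x, ‖F i j x‖ ≤ C) →
    ∀ p0 : Fin (r + 1), (∀ i x, F i p0 x = 1) → ∀ (S : Finset ι) (c : ι → ℂ),
    Tendsto (fun n => ∫ x, ‖∑ i ∈ S, c i * ∏ j, F i j ((⇑T)^[s n j] x)‖ ^ 2 ∂μ) atTop
      (𝓝 (∑ i ∈ S, ∑ i' ∈ S, c i * (starRingEnd ℂ) (c i') *
        ∏ j, ∫ x, F i j x * (starRingEnd ℂ) (F i' j x) ∂μ).re)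

/-- The central theorem: a function orthogonal to the bounded functions with absolutely continuous
spectral measure does not contribute to the correlations. -/
def S_CORE.{u} : Prop := ∀ (X : Type u) [MeasurableSpace X] (μ : Measure X) [IsProbabilityMeasure μ]
    (T : X ≃ᵐ X), MeasurePreserving T μ μ → Mixing μ T → ∀ k : ℕ, 1 ≤ k → FactSet μ T (k + 1) →
    ∀ (s : ℕ → Fin (k + 2) → ℕ), Spread s → ∀ (f : Fin (k + 2) → X → ℂ),
    (∀ i, Measurable (f i)) → (∀ i, ∃ C : ℝ, ∀ x, ‖f i x‖ ≤ C) →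
    ∀ p : Fin (k + 2), ∫ x, f p x ∂μ = 0 →
    (∀ h : X → ℂ, Measurable h → (∃ C : ℝ, ∀ x, ‖h x‖ ≤ C) → ACf μ T h →
      ∫ x, f p x * (starRingEnd ℂ) (h x) ∂μ = 0) →
    Tendsto (fun n => ∫ x, ∏ i, f i ((⇑T)^[s n i] x) ∂μ) atTop (𝓝 0)

/-- The main theorem. -/
def S_MAIN.{u} : Prop := ∀ (X : Type u) [MeasurableSpace X] (μ : Measure X)
    [IsProbabilityMeasure μ] (T : X ≃ᵐ X), MeasurePreserving T μ μ → MixK μ T 1 → ∀ k : ℕ,
    MixOn μ T k (acAlg μ T) → MixK μ T k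

end Pool.Agent.Y476.RM
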