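import Pool.Agent.Y476.RM.Koop
import Pool.Agent.Y476.RM.Stm2
import Pool.Agent.Y290.HM.Riesz

/-!
# Limits of correlations along an ultrafilter
-/

set_option autoImplicit false
open MeasureTheory Filter Topology
open scoped ENNReal

namespace Pool.Agent.Y476.RM

open Pool.Agent.H716R2

variable {X : Type*} [MeasurableSpace X]

theorem exists_lim (𝒰 : Ultrafilter ℕ) {u : ℕ → ℂ} {C : ℝ} (h : ∀ n, ‖u n‖ ≤ C) :
    ∃ z, Tendsto u 𝒰 (𝓝 z) := by
  obtain ⟨z, -, hz⟩ := (isCompact_closedBall (0 : ℂ) C).ultrafilter_le_nhds (𝒰.map u) (by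
    rw [le_principal_iff, Ultrafilter.coe_map, Filter.mem_map]
    exact Filter.univ_mem' fun n => by simpa using h n)
  exact ⟨z, hz⟩

theorem cs {μ : Measure X} [IsProbabilityMeasure μ] {G W : X → ℂ} (hG : BM G) (hW : BM W) :
    ‖∫ x, G x * W x ∂μ‖ ^ 2 ≤ (∫ x, ‖G x‖ ^ 2 ∂μ) * ∫ x, ‖W x‖ ^ 2 ∂μ := by
  have h1 := norm_inner_le_norm (𝕜 := ℂ) (cl μ _ hG.conj) (cl μ W hW)
  rw [cl_inner] at h1
  have h2 : ∫ x, W x * (starRingEnd ℂ) ((starRingEnd ℂ) (G x)) ∂μ = ∫ x, G x * W x ∂μ := by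
    refine integral_congr_ae (Eventually.of_forall fun x => ?_)
    simp only [RingHomCompTriple.comp_apply, RingHom.id_apply]
    ring
  rw [h2] at h1
  have h3 : ‖cl μ _ hG.conj‖ ^ 2 = ∫ x, ‖G x‖ ^ 2 ∂μ := by
    rw [cl_norm_sq]
    simp only [RCLike.norm_conj]
  calc ‖∫ x, G x * W x ∂μ‖ ^ 2 ≤ (‖cl μ _ hG.conj‖ * ‖cl μ W hW‖) ^ 2 :=
        pow_le_pow_left₀ (norm_nonneg _) h1 2
    _ = _ := by rw [mul_pow, h3, cl_norm_sq]

theorem gb {μ : Measure X} [IsProbabilityMeasure μ] (𝒰 : Ultrafilter ℕ) (hU : (𝒰 : Filter ℕ) ≤ atTop)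
    {ι : Type} (S : Finset ι) (c : ι → ℂ) (W : ℕ → ι → X → ℂ) (hW : ∀ n i, BM (W n i)) (Q : ℝ)
    (hQ : Tendsto (fun n => ∫ x, ‖∑ i ∈ S, c i * W n i x‖ ^ 2 ∂μ) atTop (𝓝 Q))
    (G : ℕ → X → ℂ) (hG : ∀ n, BM (G n)) (K : ℝ) (hK : ∀ n, ∫ x, ‖G n x‖ ^ 2 ∂μ ≤ K) (L : ι → ℂ)
    (hL : ∀ i ∈ S, Tendsto (fun n => ∫ x, G n x * W n i x ∂μ) 𝒰 (𝓝 (L i))) :
    ‖∑ i ∈ S, c i * L i‖ ^ 2 ≤ K * Q := by
  have h1 : Tendsto (fun n => ‖∑ i ∈ S, c i * ∫ x, G n x * W n i x ∂μ‖ ^ 2) 𝒰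
      (𝓝 (‖∑ i ∈ S, c i * L i‖ ^ 2)) := by
    refine (Tendsto.norm ?_).pow 2
    exact tendsto_finsetSum _ fun i hi => (hL i hi).const_mul _
  have h2 : Tendsto (fun n => K * ∫ x, ‖∑ i ∈ S, c i * W n i x‖ ^ 2 ∂μ) 𝒰 (𝓝 (K * Q)) :=
    (hQ.mono_left hU).const_mul K
  refine le_of_tendsto_of_tendsto' h1 h2 fun n => ?_
  have e1 : ∑ i ∈ S, c i * ∫ x, G n x * W n i x ∂μ
      = ∫ x, G n x * (∑ i ∈ S, c i * W n i x) ∂μ := by
    simp only [Finset.mul_sum]
    rw [integral_finsetSum]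
    · refine Finset.sum_congr rfl fun i _ => ?_
      rw [← integral_const_mul]
      refine integral_congr_ae (Eventually.of_forall fun x => ?_)
      simp only
      ring
    · intro i _
      exact ((hG n).mul ((hW n i).smul (c i))).integrable μ
  rw [e1]
  refine (cs (hG n) (BM.sum S fun i => (hW n i).smul (c i))).trans ?_
  exact mul_le_mul_of_nonneg_right (hK n) (integral_nonneg fun x => by positivity)

theorem exists_h {μ : Measure X} [IsProbabilityMeasure μ] {T : X ≃ᵐ X}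
    (hT : MeasurePreserving T μ μ) (𝒰 : Ultrafilter ℕ) (t : ℕ → ℕ) (R : ℕ → X → ℂ)
    (hR : ∀ n, BM (R n)) (M : ℝ) (hM : ∀ n x, ‖R n x‖ ≤ M) :
    ∃ h : Lp ℂ 2 μ, ∀ (g : X → ℂ) (hg : BM g),
      Tendsto (fun n => ∫ x, g ((⇑T)^[t n] x) * R n x ∂μ) 𝒰 (𝓝 (inner ℂ h (cl μ g hg))) := by
  obtain ⟨x0⟩ : Nonempty X := by
    by_contra hne
    rw [not_nonempty_iff] at hne
    have := measure_univ (μ := μ)
    rw [Set.eq_empty_of_isEmpty (Set.univ : Set X), measure_empty] at this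
    exact zero_ne_one this
  have hM0 : 0 ≤ M := (norm_nonneg _).trans (hM 0 x0)
  have hmp : ∀ n : ℕ, MeasurePreserving (⇑T)^[n] μ μ := fun n => hT.iterate n
  have bound : ∀ (g : X → ℂ) (hg : BM g) (n : ℕ),
      ‖∫ x, g ((⇑T)^[t n] x) * R n x ∂μ‖ ^ 2 ≤ M ^ 2 * ‖cl μ g hg‖ ^ 2 := by
    intro g hg n
    refine (cs (hg.comp (hmp _).measurable) (hR n)).trans ?_
    rw [cl_norm_sq, mul_comm]
    have e1 : ∫ x, ‖g ((⇑T)^[t n] x)‖ ^ 2 ∂μ = ∫ x, ‖g x‖ ^ 2 ∂μ := by
      have := integral_map (μ := μ) (φ := (⇑T)^[t n]) (hmp _).measurable.aemeasurable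
        (f := fun x => ‖g x‖ ^ 2) (hg.1.norm.pow_const 2).aestronglyMeasurable
      rw [(hmp _).map_eq] at this
      exact this.symm
    rw [e1]
    refine mul_le_mul_of_nonneg_right ?_ (integral_nonneg fun x => by positivity)
    calc ∫ x, ‖R n x‖ ^ 2 ∂μ ≤ ∫ x, M ^ 2 ∂μ := by
          refine integral_mono_of_nonneg (Eventually.of_forall fun x => by positivity)
            (integrable_const _) (Eventually.of_forall fun x => ?_)
          exact pow_le_pow_left₀ (norm_nonneg _) (hM n x) 2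
      _ = M ^ 2 := by simp
  have hlim : ∀ (g : X → ℂ) (hg : BM g), ∃ z,
      Tendsto (fun n => ∫ x, g ((⇑T)^[t n] x) * R n x ∂μ) 𝒰 (𝓝 z) := by
    intro g hg
    refine exists_lim 𝒰 (C := M * ‖cl μ g hg‖) fun n => ?_
    have := bound g hg n
    rw [← mul_pow] at this
    exact (abs_le_of_sq_le_sq' this (by positivity)).2
  choose! L hL using hlim
  obtain ⟨h, hh⟩ := Pool.Agent.Y290.HM.Riesz.abstr (ι := {g : X → ℂ // BM g})
    (fun g => cl μ g.1 g.2) (fun g => L g.1) (M ^ 2) (by positivity) (by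
      intro S c
      have hsum : BM (fun x => ∑ i ∈ S, c i * i.1 x) := BM.sum S fun i => i.2.smul (c i)
      have e1 : ∑ i ∈ S, c i • cl μ i.1 i.2 = cl μ _ hsum := by
        have e2 : ∀ S' : Finset {g : X → ℂ // BM g}, ∑ i ∈ S', c i • cl μ i.1 i.2
            = cl μ _ (BM.sum S' fun i => i.2.smul (c i)) := by
          intro S'
          classical
          induction S' using Finset.induction_on with
          | empty =>
            simp only [Finset.sum_empty]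
            symm
            exact MemLp.toLp_zero _
          | insert a S' ha ih =>
            rw [Finset.sum_insert ha, ih]
            unfold cl
            rw [← MemLp.toLp_const_smul, ← MemLp.toLp_add]
            apply (MemLp.toLp_eq_toLp_iff _ _).2
            refine Eventually.of_forall fun x => ?_
            simp [Finset.sum_insert ha]
        exact e2 S
      rw [e1]
      have h3 : Tendsto (fun n => ∫ x, (∑ i ∈ S, c i * i.1 ((⇑T)^[t n] x)) * R n x ∂μ) 𝒰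
          (𝓝 (∑ i ∈ S, c i * L i.1)) := by
        have h4 : Tendsto (fun n => ∑ i ∈ S, c i * ∫ x, i.1 ((⇑T)^[t n] x) * R n x ∂μ) 𝒰
            (𝓝 (∑ i ∈ S, c i * L i.1)) :=
          tendsto_finsetSum _ fun i _ => (hL i.1 i.2).const_mul _
        refine h4.congr fun n => ?_
        simp only [Finset.sum_mul]
        rw [integral_finsetSum]
        · refine Finset.sum_congr rfl fun i _ => ?_
          rw [← integral_const_mul]
          refine integral_congr_ae (Eventually.of_forall fun x => ?_)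
          simp only
          ring
        · intro i _
          exact (((i.2.comp (hmp _).measurable).smul (c i)).mul (hR n)).integrable μ
      exact le_of_tendsto' ((h3.norm).pow 2) fun n => bound _ hsum n)
  refine ⟨h, fun g hg => ?_⟩
  rw [hh ⟨g, hg⟩]
  exact hL g hg

end Pool.Agent.Y476.RM
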