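import Pool.Agent.Y476.RM.Core1

/-!
# The three bounds
-/

set_option autoImplicit false
open MeasureTheory Filter Topology
open scoped ENNReal

namespace Pool.Agent.Y476.RM

open Pool.Agent.H716R2

variable {X : Type*} [MeasurableSpace X]

theorem int_sq_iter {μ : Measure X} {T : X ≃ᵐ X} (hT : MeasurePreserving T μ μ) (n : ℕ)
    {g : X → ℂ} (hg : Measurable g) :
    ∫ x, ‖g ((⇑T)^[n] x)‖ ^ 2 ∂μ = ∫ x, ‖g x‖ ^ 2 ∂μ := by
  have := integral_map (μ := μ) (φ := (⇑T)^[n]) (hT.iterate n).measurable.aemeasurable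
    (f := fun x => ‖g x‖ ^ 2) (hg.norm.pow_const 2).aestronglyMeasurable
  rw [(hT.iterate n).map_eq] at this
  exact this.symm

theorem int_sq_le {μ : Measure X} [IsProbabilityMeasure μ] {g : X → ℂ} {M : ℝ}
    (hM : ∀ x, ‖g x‖ ≤ M) : ∫ x, ‖g x‖ ^ 2 ∂μ ≤ M ^ 2 := by
  calc ∫ x, ‖g x‖ ^ 2 ∂μ ≤ ∫ x, M ^ 2 ∂μ := by
        refine integral_mono_of_nonneg (Eventually.of_forall fun x => by positivity)
          (integrable_const _) (Eventually.of_forall fun x => ?_)
        exact pow_le_pow_left₀ (norm_nonneg _) (hM x) 2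
    _ = M ^ 2 := by simp

variable {k : ℕ}

/-- the product of the functions at the positions different from `p`, shifted by `a` at the
position `q` and by `b` elsewhere -/
noncomputable def Rr (T : X ≃ᵐ X) (s : ℕ → Fin (k + 2) → ℕ) (f : Fin (k + 2) → X → ℂ)
    (p q : Fin (k + 2)) (a b : ℤ) (n : ℕ) (x : X) : ℂ :=
  f q (Ti T a ((⇑T)^[s n q] x)) *
    ∏ j ∈ (Finset.univ.erase p).erase q, f j (Ti T b ((⇑T)^[s n j] x))

theorem iter_meas' (T : X ≃ᵐ X) (n : ℕ) : Measurable (⇑T)^[n] := T.measurable.iterate n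

theorem Rr_BM (T : X ≃ᵐ X) (s : ℕ → Fin (k + 2) → ℕ) {f : Fin (k + 2) → X → ℂ}
    (hf : ∀ j, BM (f j)) (p q : Fin (k + 2)) (a b : ℤ) (n : ℕ) : BM (Rr T s f p q a b n) :=
  ((hf q).comp ((Ti_meas T a).comp (iter_meas' T _))).mul
    (BM.prod _ fun j => (hf j).comp ((Ti_meas T b).comp (iter_meas' T _)))

theorem prod_split {p q : Fin (k + 2)} (hpq : q ≠ p) (F : Fin (k + 2) → ℂ) :
    ∏ j, F j = F p * (F q * ∏ j ∈ (Finset.univ.erase p).erase q, F j) := by
  rw [Finset.mul_prod_erase _ _ (Finset.mem_erase.2 ⟨hpq, Finset.mem_univ q⟩),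
    Finset.mul_prod_erase _ _ (Finset.mem_univ p)]

theorem prod_case {p q : Fin (k + 2)} (hpq : q ≠ p) (u v : ℂ) (F : Fin (k + 2) → ℂ) :
    ∏ j, (if j = p then u else if j = q then v else F j)
      = u * (v * ∏ j ∈ (Finset.univ.erase p).erase q, F j) := by
  rw [prod_split hpq]
  rw [if_pos rfl, if_neg hpq, if_pos rfl]
  congr 2
  refine Finset.prod_congr rfl fun j hj => ?_
  rw [Finset.mem_erase, Finset.mem_erase] at hj
  rw [if_neg hj.2.1, if_neg hj.1]

theorem Rr_bound (T : X ≃ᵐ X) (s : ℕ → Fin (k + 2) → ℕ) {f : Fin (k + 2) → X → ℂ} {C : ℝ}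
    (hC : 1 ≤ C) (hf : ∀ j x, ‖f j x‖ ≤ C) (p q : Fin (k + 2)) (a b : ℤ) (n : ℕ) (x : X) :
    ‖Rr T s f p q a b n x‖ ≤ C * C ^ (k + 2) := by
  unfold Rr
  rw [norm_mul]
  refine mul_le_mul (hf _ _) ?_ (norm_nonneg _) (by linarith)
  exact prod_bound (g := f) hC hf _ (fun j => Ti T b ((⇑T)^[s n j] x))

/-- the family of functions -/
def Ff (T : X ≃ᵐ X) (f : Fin (k + 2) → X → ℂ) (p q : Fin (k + 2)) (g : X → ℂ) (c : Option ℤ)
    (a b : Option ℤ) (j : Fin (k + 2)) : X → ℂ :=
  if j = p then (match c with | none => fun _ => 1 | some c => fun x => g (Ti T c x))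
  else if j = q then (match a with | none => fun _ => 1 | some a => fun x => f j (Ti T a x))
  else (match b with | none => fun _ => 1 | some b => fun x => f j (Ti T b x))

theorem Ff_BM (T : X ≃ᵐ X) {f : Fin (k + 2) → X → ℂ} (hf : ∀ j, BM (f j)) (p q : Fin (k + 2))
    {g : X → ℂ} (hg : BM g) (c a b : Option ℤ) (j : Fin (k + 2)) : BM (Ff T f p q g c a b j) := by
  unfold Ff
  split_ifs
  · cases c with
    | none => exact BM.const 1
    | some c => exact hg.comp (Ti_meas T c)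
  · cases a with
    | none => exact BM.const 1
    | some a => exact (hf j).comp (Ti_meas T a)
  · cases b with
    | none => exact BM.const 1
    | some b => exact (hf j).comp (Ti_meas T b)

/-- the correlation of a possibly absent function -/
noncomputable def og (μ : Measure X) (T : X ≃ᵐ X) (g : X → ℂ) (c c' : Option ℤ) : ℂ :=
  ∫ x, (match c with | none => (1 : ℂ) | some c => g (Ti T c x)) *
    (starRingEnd ℂ) (match c' with | none => (1 : ℂ) | some c' => g (Ti T c' x)) ∂μ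

theorem og_none (μ : Measure X) [IsProbabilityMeasure μ] (T : X ≃ᵐ X) (g : X → ℂ) :
    og μ T g none none = 1 := by
  simp [og]

theorem og_some (μ : Measure X) [IsProbabilityMeasure μ] {T : X ≃ᵐ X}
    (hT : MeasurePreserving T μ μ) {g : X → ℂ} (hg : BM g) (c c' : ℤ) :
    og μ T g (some c) (some c') = gam μ T g (c - c') :=
  corr_shift T hT hg c c'

theorem qf_val {μ : Measure X} (T : X ≃ᵐ X) (f : Fin (k + 2) → X → ℂ) {p q : Fin (k + 2)}
    (hpq : q ≠ p) (g : X → ℂ) (c a b c' a' b' : Option ℤ) :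
    ∏ j, ∫ x, Ff T f p q g c a b j x * (starRingEnd ℂ) (Ff T f p q g c' a' b' j x) ∂μ
      = og μ T g c c' * (og μ T (f q) a a' *
        ∏ j ∈ (Finset.univ.erase p).erase q, og μ T (f j) b b') := by
  rw [prod_split hpq]
  congr 1
  · unfold og Ff
    rw [if_pos rfl, if_pos rfl]
    cases c <;> cases c' <;> rfl
  · congr 1
    · unfold og Ff
      rw [if_neg hpq, if_pos rfl, if_neg hpq, if_pos rfl]
      cases a <;> cases a' <;> rfl
    · refine Finset.prod_congr rfl fun j hj => ?_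
      rw [Finset.mem_erase, Finset.mem_erase] at hj
      unfold og Ff
      rw [if_neg hj.2.1, if_neg hj.1, if_neg hj.2.1, if_neg hj.1]
      cases b <;> cases b' <;> rfl

theorem Ff_prod (T : X ≃ᵐ X) (f : Fin (k + 2) → X → ℂ) {p q : Fin (k + 2)} (hpq : q ≠ p)
    (g : X → ℂ) (c a b : Option ℤ) (y : Fin (k + 2) → X) :
    ∏ j, Ff T f p q g c a b j (y j) =
      (match c with | none => (1 : ℂ) | some c => g (Ti T c (y p))) *
      ((match a with | none => (1 : ℂ) | some a => f q (Ti T a (y q))) *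
        ∏ j ∈ (Finset.univ.erase p).erase q,
          (match b with | none => (1 : ℂ) | some b => f j (Ti T b (y j)))) := by
  rw [prod_split hpq]
  congr 1
  · unfold Ff
    rw [if_pos rfl]
    cases c <;> rfl
  · congr 1
    · unfold Ff
      rw [if_neg hpq, if_pos rfl]
      cases a <;> rfl
    · refine Finset.prod_congr rfl fun j hj => ?_
      rw [Finset.mem_erase, Finset.mem_erase] at hj
      unfold Ff
      rw [if_neg hj.2.1, if_neg hj.1]
      cases b <;> rfl

/-- shift invariance of the correlation -/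
theorem shift_cor {μ : Measure X} {T : X ≃ᵐ X} (hT : MeasurePreserving T μ μ)
    (s : ℕ → Fin (k + 2) → ℕ) {f : Fin (k + 2) → X → ℂ} (hf : ∀ j, BM (f j)) (p q : Fin (k + 2))
    {g : X → ℂ} (hg : BM g) (a b c : ℤ) (n : ℕ) :
    ∫ x, g (Ti T c ((⇑T)^[s n p] x)) * Rr T s f p q (a + c) (b + c) n x ∂μ
      = ∫ x, g ((⇑T)^[s n p] x) * Rr T s f p q a b n x ∂μ := by
  rw [← int_Ti T hT c (f := fun x => g ((⇑T)^[s n p] x) * Rr T s f p q a b n x)]
  · refine integral_congr_ae (Eventually.of_forall fun x => ?_)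
    simp only [Rr, Ti_add, Ti_iter]
  · exact ((hg.comp (iter_meas' T _)).mul (Rr_BM T s hf p q a b n)).1

end Pool.Agent.Y476.RM
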