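import Pool.Agent.Y476.RM.Core2

/-!
# The three bounds, continued
-/

set_option autoImplicit false
open MeasureTheory Filter Topology
open scoped ENNReal

namespace Pool.Agent.Y476.RM

open Pool.Agent.H716R2

universe u

variable {X : Type u} [MeasurableSpace X] {k : ℕ}

/-- General form of the three bounds. -/
theorem gbound (hQF : S_QF.{u}) {μ : Measure X} [IsProbabilityMeasure μ] {T : X ≃ᵐ X}
    (hT : MeasurePreserving T μ μ) (hfact : FactSet μ T (k + 1)) {s : ℕ → Fin (k + 2) → ℕ}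
    (hs : Spread s) {f : Fin (k + 2) → X → ℂ} (hf : ∀ j, BM (f j)) {p q : Fin (k + 2)}
    (hpq : q ≠ p) (𝒰 : Ultrafilter ℕ) (hU : (𝒰 : Filter ℕ) ≤ atTop)
    {g : X → ℂ} (hg : BM g) (S : Finset (ℤ × ℤ)) (co : ℤ × ℤ → ℂ)
    (c a b : ℤ × ℤ → Option ℤ) (p0 : Fin (k + 2))
    (h0 : ∀ i x, Ff T f p q g (c i) (a i) (b i) p0 x = 1)
    (G : ℕ → X → ℂ) (hG : ∀ n, BM (G n)) (K : ℝ) (hK : ∀ n, ∫ x, ‖G n x‖ ^ 2 ∂μ ≤ K)
    (L : ℤ × ℤ → ℂ)
    (hL : ∀ i ∈ S, Tendsto (fun n => ∫ x, G n x *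
      ∏ j, Ff T f p q g (c i) (a i) (b i) j ((⇑T)^[s n j] x) ∂μ) 𝒰 (𝓝 (L i))) :
    ‖∑ i ∈ S, co i * L i‖ ^ 2 ≤ K * (∑ i ∈ S, ∑ i' ∈ S, co i * (starRingEnd ℂ) (co i') *
      (og μ T g (c i) (c i') * (og μ T (f q) (a i) (a i') *
        ∏ j ∈ (Finset.univ.erase p).erase q, og μ T (f j) (b i) (b i')))).re := by
  have hbm : ∀ (i : ℤ × ℤ) (j : Fin (k + 2)), BM (Ff T f p q g (c i) (a i) (b i) j) :=
    fun i j => Ff_BM T hf p q hg _ _ _ j
  have h1 := hQF X μ T hT (k + 1) hfact s hs (ℤ × ℤ)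
    (fun i => Ff T f p q g (c i) (a i) (b i)) (fun i j => (hbm i j).1) (fun i j => (hbm i j).2)
    p0 h0 S co
  simp only [qf_val T f hpq g] at h1
  exact gb 𝒰 hU S co
    (fun n i x => ∏ j, Ff T f p q g (c i) (a i) (b i) j ((⇑T)^[s n j] x))
    (fun n i => BM.prod _ fun j => (hbm i j).comp (iter_meas' T _)) _ h1 G hG K hK L hL

variable {μ : Measure X} [IsProbabilityMeasure μ] {T : X ≃ᵐ X}

theorem b12 (hQF : S_QF.{u})
    (hT : MeasurePreserving T μ μ) (hfact : FactSet μ T (k + 1)) {s : ℕ → Fin (k + 2) → ℕ}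
    (hs : Spread s) {f : Fin (k + 2) → X → ℂ} (hf : ∀ j, BM (f j)) {p q : Fin (k + 2)}
    (hpq : q ≠ p) (𝒰 : Ultrafilter ℕ) (hU : (𝒰 : Filter ℕ) ≤ atTop)
    (h : ℤ → ℤ → Lp ℂ 2 μ) (hh : ∀ a b (g : X → ℂ) (hg : BM g),
      Tendsto (fun n => ∫ x, g ((⇑T)^[s n p] x) * Rr T s f p q a b n x ∂μ) 𝒰
        (𝓝 (inner ℂ (h a b) (cl μ g hg))))
    {g : X → ℂ} (hg : BM g) (S : Finset (ℤ × ℤ)) (co : ℤ × ℤ → ℂ) (K : ℝ)
    (hK : ∫ x, ‖g x‖ ^ 2 ∂μ ≤ K) :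
    ‖∑ i ∈ S, co i * inner ℂ (h i.1 i.2) (cl μ g hg)‖ ^ 2 ≤
      K * (∑ i ∈ S, ∑ j ∈ S, co i * (starRingEnd ℂ) (co j) * gam μ T (f q) (i.1 - j.1) *
        ∏ l ∈ (Finset.univ.erase p).erase q, gam μ T (f l) (i.2 - j.2)).re := by
  have h1 := gbound hQF hT hfact hs hf hpq 𝒰 hU hg S co (fun _ => none) (fun i => some i.1)
    (fun i => some i.2) p (fun i x => by simp [Ff]) (fun n x => g ((⇑T)^[s n p] x))
    (fun n => hg.comp (iter_meas' T _)) K (fun n => by rw [int_sq_iter hT _ hg.1]; exact hK)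
    (fun i => inner ℂ (h i.1 i.2) (cl μ g hg)) (fun i _ => by
      refine (hh i.1 i.2 g hg).congr fun n => ?_
      refine integral_congr_ae (Eventually.of_forall fun x => ?_)
      simp only [Ff_prod T f hpq, Rr, one_mul])
  simp only [og_none, og_some _ hT (hf _), one_mul] at h1
  simpa only [mul_assoc] using h1

theorem b13 (hQF : S_QF.{u}) (hk : 1 ≤ k)
    (hT : MeasurePreserving T μ μ) (hfact : FactSet μ T (k + 1)) {s : ℕ → Fin (k + 2) → ℕ}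
    (hs : Spread s) {f : Fin (k + 2) → X → ℂ} (hf : ∀ j, BM (f j)) {C : ℝ} (hC : 1 ≤ C)
    (hfC : ∀ j x, ‖f j x‖ ≤ C) {p q : Fin (k + 2)}
    (hpq : q ≠ p) (𝒰 : Ultrafilter ℕ) (hU : (𝒰 : Filter ℕ) ≤ atTop)
    (h : ℤ → ℤ → Lp ℂ 2 μ) (hh : ∀ a b (g : X → ℂ) (hg : BM g),
      Tendsto (fun n => ∫ x, g ((⇑T)^[s n p] x) * Rr T s f p q a b n x ∂μ) 𝒰
        (𝓝 (inner ℂ (h a b) (cl μ g hg))))
    {g : X → ℂ} (hg : BM g) (S : Finset (ℤ × ℤ)) (co : ℤ × ℤ → ℂ) (K : ℝ)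
    (hK : (C ^ (k + 2)) ^ 2 ≤ K) :
    ‖∑ i ∈ S, co i * inner ℂ (h i.1 i.2) (cl μ g hg)‖ ^ 2 ≤
      K * (∑ i ∈ S, ∑ j ∈ S, co i * (starRingEnd ℂ) (co j) *
        gam μ T (f q) ((i.1 - i.2) - (j.1 - j.2)) * gam μ T g (-i.2 - -j.2)).re := by
  obtain ⟨p0, hp0⟩ : ∃ p0 : Fin (k + 2), p0 ∈ (Finset.univ.erase p).erase q := by
    by_contra hne
    push Not at hne
    have h1 : ((Finset.univ.erase p).erase q : Finset (Fin (k + 2))).card = k := by
      rw [Finset.card_erase_of_mem (Finset.mem_erase.2 ⟨hpq, Finset.mem_univ q⟩),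
        Finset.card_erase_of_mem (Finset.mem_univ p), Finset.card_fin]
      rfl
    rw [Finset.eq_empty_of_forall_notMem hne, Finset.card_empty] at h1
    omega
  rw [Finset.mem_erase, Finset.mem_erase] at hp0
  have h1 := gbound hQF hT hfact hs hf hpq 𝒰 hU hg S co (fun i => some (-i.2))
    (fun i => some (i.1 - i.2))
    (fun i => none) p0 (fun i x => by
      unfold Ff
      rw [if_neg hp0.2.1, if_neg hp0.1])
    (fun n x => ∏ j ∈ (Finset.univ.erase p).erase q, f j ((⇑T)^[s n j] x))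
    (fun n => BM.prod _ fun j => (hf j).comp (iter_meas' T _)) K (fun n => by
      refine (int_sq_le (M := C ^ (k + 2)) fun x => ?_).trans hK
      exact prod_bound (g := f) hC hfC _ (fun j => (⇑T)^[s n j] x))
    (fun i => inner ℂ (h i.1 i.2) (cl μ g hg)) (fun i _ => by
      refine (hh i.1 i.2 g hg).congr fun n => ?_
      rw [← shift_cor hT s hf p q hg i.1 i.2 (-i.2) n]
      refine integral_congr_ae (Eventually.of_forall fun x => ?_)
      simp only [Ff_prod T f hpq, Rr, Finset.prod_const_one, mul_one]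
      rw [add_neg_cancel, ← sub_eq_add_neg]
      simp only [Ti_zero]
      ring)
  simp only [og_none, og_some _ hT (hf _), og_some _ hT hg, Finset.prod_const_one, mul_one] at h1
  refine h1.trans (le_of_eq ?_)
  congr 2
  refine Finset.sum_congr rfl fun i _ => Finset.sum_congr rfl fun j _ => ?_
  ring

theorem b23 (hQF : S_QF.{u})
    (hT : MeasurePreserving T μ μ) (hfact : FactSet μ T (k + 1)) {s : ℕ → Fin (k + 2) → ℕ}
    (hs : Spread s) {f : Fin (k + 2) → X → ℂ} (hf : ∀ j, BM (f j)) {C : ℝ} (hC : 1 ≤ C)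
    (hfC : ∀ j x, ‖f j x‖ ≤ C) {p q : Fin (k + 2)}
    (hpq : q ≠ p) (𝒰 : Ultrafilter ℕ) (hU : (𝒰 : Filter ℕ) ≤ atTop)
    (h : ℤ → ℤ → Lp ℂ 2 μ) (hh : ∀ a b (g : X → ℂ) (hg : BM g),
      Tendsto (fun n => ∫ x, g ((⇑T)^[s n p] x) * Rr T s f p q a b n x ∂μ) 𝒰
        (𝓝 (inner ℂ (h a b) (cl μ g hg))))
    {g : X → ℂ} (hg : BM g) (S : Finset (ℤ × ℤ)) (co : ℤ × ℤ → ℂ) (K : ℝ)
    (hK : C ^ 2 ≤ K) :
    ‖∑ i ∈ S, co i * inner ℂ (h i.1 i.2) (cl μ g hg)‖ ^ 2 ≤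
      K * (∑ i ∈ S, ∑ j ∈ S, co i * (starRingEnd ℂ) (co j) *
        (∏ l ∈ (Finset.univ.erase p).erase q, gam μ T (f l) ((i.2 - i.1) - (j.2 - j.1))) *
        gam μ T g (-i.1 - -j.1)).re := by
  have h1 := gbound hQF hT hfact hs hf hpq 𝒰 hU hg S co (fun i => some (-i.1))
    (fun i => none) (fun i => some (i.2 - i.1)) q (fun i x => by
      unfold Ff
      rw [if_neg hpq, if_pos rfl])
    (fun n x => f q ((⇑T)^[s n q] x))
    (fun n => (hf q).comp (iter_meas' T _)) K (fun n => by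
      refine (int_sq_le (M := C) fun x => ?_).trans hK
      exact hfC q _)
    (fun i => inner ℂ (h i.1 i.2) (cl μ g hg)) (fun i _ => by
      refine (hh i.1 i.2 g hg).congr fun n => ?_
      rw [← shift_cor hT s hf p q hg i.1 i.2 (-i.1) n]
      refine integral_congr_ae (Eventually.of_forall fun x => ?_)
      simp only [Ff_prod T f hpq, Rr, one_mul]
      rw [add_neg_cancel, ← sub_eq_add_neg]
      simp only [Ti_zero]
      ring)
  simp only [og_none, og_some _ hT (hf _), og_some _ hT hg, one_mul] at h1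
  refine h1.trans (le_of_eq ?_)
  congr 2
  refine Finset.sum_congr rfl fun i _ => Finset.sum_congr rfl fun j _ => ?_
  ring

end Pool.Agent.Y476.RM
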