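import Pool.Agent.Y476.RM.Core3

/-!
# Density, boundedness and decay
-/

set_option autoImplicit false
open MeasureTheory Filter Topology
open scoped ENNReal

namespace Pool.Agent.Y476.RM

open Pool.Agent.H716R2

universe u

variable {X : Type u} [MeasurableSpace X] {k : ℕ}

theorem dense_ind (μ : Measure X) [IsFiniteMeasure μ] (P : Lp ℂ 2 μ → Prop)
    (hc : IsClosed {g | P g}) (h : ∀ (g : X → ℂ) (hg : BM g), P (cl μ g hg)) (g : Lp ℂ 2 μ) :
    P g := by
  have hd := Lp.simpleFunc.denseRange (E := ℂ) (μ := μ) (p := 2) (by simp)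
  refine hd.induction_on (p := P) g hc fun φ => ?_
  have hb : BM (Lp.simpleFunc.toSimpleFunc φ : X → ℂ) := by
    refine ⟨(Lp.simpleFunc.toSimpleFunc φ).measurable, ?_⟩
    obtain ⟨C, hC⟩ := (Lp.simpleFunc.toSimpleFunc φ).exists_forall_norm_le
    exact ⟨C, hC⟩
  have h1 := h _ hb
  have h2 : cl μ _ hb = (φ : Lp ℂ 2 μ) := by
    apply Lp.ext
    exact (cl_ae μ hb).trans (Lp.simpleFunc.toSimpleFunc_eq_toFun φ)
  rwa [h2] at h1

/-- an element of `L²` which is bounded as a functional on `L¹` is bounded -/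
theorem bdd_rep (μ : Measure X) [IsFiniteMeasure μ] (v : Lp ℂ 2 μ) (M : ℝ) (hM0 : 0 ≤ M)
    (hM : ∀ (g : X → ℂ) (hg : BM g), ‖(inner ℂ v (cl μ g hg) : ℂ)‖ ≤ M * ∫ x, ‖g x‖ ∂μ) :
    ∃ (w : X → ℂ) (hw : BM w), cl μ w hw = v := by
  have hsm := Lp.aestronglyMeasurable v
  set v' : X → ℂ := hsm.mk v with hv'
  have hv'm : Measurable v' := hsm.stronglyMeasurable_mk.measurable
  have hvv : v =ᵐ[μ] v' := hsm.ae_eq_mk
  set E : Set X := {x | M < ‖v' x‖} with hE
  have hEm : MeasurableSet E := measurableSet_lt measurable_const hv'm.norm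
  set g : X → ℂ := E.indicator (fun x => v' x / ‖v' x‖) with hg
  have hgn : ∀ x, ‖g x‖ ≤ 1 := by
    intro x
    rw [hg]
    by_cases hx : x ∈ E
    · rw [Set.indicator_of_mem hx, norm_div, Complex.norm_real, norm_norm]
      exact div_self_le_one _
    · rw [Set.indicator_of_notMem hx, norm_zero]
      exact zero_le_one
  have hgB : BM g := by
    refine ⟨?_, 1, hgn⟩
    refine Measurable.indicator ?_ hEm
    exact hv'm.div (Complex.measurable_ofReal.comp hv'm.norm)
  have h1 := hM g hgB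
  rw [cl_inner_left] at h1
  have hi : Integrable (fun x => ‖v' x‖) μ := by
    have h2 : Integrable v μ := (Lp.memLp v).integrable (by norm_num)
    exact (h2.congr hvv).norm
  have h2 : ∫ x, g x * (starRingEnd ℂ) (v x) ∂μ = ((∫ x in E, ‖v' x‖ ∂μ : ℝ) : ℂ) := by
    rw [← integral_indicator hEm, ← integral_complex_ofReal]
    refine integral_congr_ae ?_
    filter_upwards [hvv] with x hx
    rw [hx, hg]
    by_cases hxE : x ∈ E
    · rw [Set.indicator_of_mem hxE, Set.indicator_of_mem hxE]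
      have hpos : (0 : ℝ) < ‖v' x‖ := lt_of_le_of_lt hM0 hxE
      have hne : ((‖v' x‖ : ℝ) : ℂ) ≠ 0 := by exact_mod_cast hpos.ne'
      rw [div_mul_eq_mul_div, Complex.mul_conj, Complex.normSq_eq_norm_sq]
      field_simp
      push_cast
      ring
    · rw [Set.indicator_of_notMem hxE, Set.indicator_of_notMem hxE]
      simp
  have h3 : ∫ x, ‖g x‖ ∂μ ≤ μ.real E := by
    calc ∫ x, ‖g x‖ ∂μ ≤ ∫ x, E.indicator (fun _ => (1 : ℝ)) x ∂μ := by
          refine integral_mono_of_nonneg (Eventually.of_forall fun x => norm_nonneg _)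
            ((integrable_const _).indicator hEm) (Eventually.of_forall fun x => ?_)
          show ‖g x‖ ≤ E.indicator (fun _ => (1 : ℝ)) x
          by_cases hxE : x ∈ E
          · rw [Set.indicator_of_mem hxE]
            exact hgn x
          · rw [Set.indicator_of_notMem hxE, hg, Set.indicator_of_notMem hxE, norm_zero]
      _ = μ.real E := by
          rw [integral_indicator hEm]
          simp
  rw [h2, Complex.norm_real, Real.norm_eq_abs] at h1
  have h4 : ∫ x in E, (‖v' x‖ - M) ∂μ ≤ 0 := by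
    rw [integral_sub hi.integrableOn (integrable_const _).integrableOn]
    have h5 : ∫ x in E, M ∂μ = M * μ.real E := by
      rw [setIntegral_const, smul_eq_mul, mul_comm]
    rw [h5]
    have h6 := (le_abs_self _).trans h1
    have h7 := mul_le_mul_of_nonneg_left h3 hM0
    linarith
  have h8 : μ E = 0 := by
    have h9 : 0 ≤ᵐ[μ.restrict E] fun x => ‖v' x‖ - M := by
      refine (ae_restrict_iff' hEm).2 (Eventually.of_forall fun x hx => ?_)
      have : M < ‖v' x‖ := hx
      simp only [Pi.zero_apply]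
      linarith
    have h10 : ∫ x in E, (‖v' x‖ - M) ∂μ = 0 := le_antisymm h4 (integral_nonneg_of_ae h9)
    rw [integral_eq_zero_iff_of_nonneg_ae h9 (hi.sub (integrable_const _)).integrableOn] at h10
    have h11 := (ae_restrict_iff' hEm).1 h10
    rw [← nonpos_iff_eq_zero]
    refine (measure_mono (fun x hx => ?_)).trans (le_of_eq h11)
    show ¬ (x ∈ E → _)
    intro hcon
    have h12 : ‖v' x‖ - M = 0 := hcon hx
    have h13 : M < ‖v' x‖ := hx
    linarith
  set w : X → ℂ := Eᶜ.indicator v' with hw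
  have hwB : BM w := by
    refine ⟨hv'm.indicator hEm.compl, M, fun x => ?_⟩
    by_cases hx : x ∈ E
    · rw [hw, Set.indicator_of_notMem (by simpa using hx), norm_zero]
      exact hM0
    · rw [hw, Set.indicator_of_mem (by simpa using hx)]
      exact not_lt.1 hx
  refine ⟨w, hwB, ?_⟩
  apply Lp.ext
  refine (cl_ae μ hwB).trans ?_
  have h14 : ∀ᵐ x ∂μ, x ∉ E := measure_eq_zero_iff_ae_notMem.1 h8
  filter_upwards [hvv, h14] with x hx1 hx2
  rw [hx1, hw, Set.indicator_of_mem (by simpa using hx2)]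

theorem decay {μ : Measure X} [IsProbabilityMeasure μ] {T : X ≃ᵐ X}
    (hT : MeasurePreserving T μ μ) (hk : 1 ≤ k) (hfact : FactSet μ T (k + 1)) {f : X → ℂ}
    (hf : BM f) (h0 : ∫ x, f x ∂μ = 0) : Tendsto (fun n : ℕ => gam μ T f n) atTop (𝓝 0) := by
  let g : Fin (k + 1) → X → ℂ := fun i => if (i : ℕ) = 0 then fun x => (starRingEnd ℂ) (f x)
    else if (i : ℕ) = 1 then f else fun _ => 1
  have hg : ∀ i, BM (g i) := by
    intro i
    simp only [g]
    split_ifs
    · exact hf.conj
    · exact hf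
    · exact BM.const 1
  have h1 := fact_fun (𝕜 := ℂ) hT hfact (s := fun n i => n * i) (by
    intro N
    filter_upwards [eventually_ge_atTop N] with n hn
    intro i j hij
    have h2 : (i : ℕ) + 1 ≤ j := hij
    nlinarith) g (fun i => (hg i).1) (fun i => (hg i).2)
  have h2 : ∏ i, ∫ x, g i x ∂μ = 0 := by
    refine Finset.prod_eq_zero (Finset.mem_univ (⟨1, by omega⟩ : Fin (k + 1))) ?_
    simp only [g, one_ne_zero, if_false, if_true]
    exact h0
  rw [h2] at h1
  refine h1.congr fun n => ?_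
  unfold gam
  refine integral_congr_ae (Eventually.of_forall fun x => ?_)
  show ∏ i : Fin (k + 1), g i ((⇑T)^[n * (i : ℕ)] x) = f (Ti T n x) * (starRingEnd ℂ) (f x)
  have h01 : (⟨0, by omega⟩ : Fin (k + 1)) ≠ ⟨1, by omega⟩ := by
    intro h
    simpa using congrArg Fin.val h
  rw [← Finset.mul_prod_erase _ _ (Finset.mem_univ (⟨0, by omega⟩ : Fin (k + 1))),
    ← Finset.mul_prod_erase _ _ (Finset.mem_erase.2 ⟨h01.symm, Finset.mem_univ
      (⟨1, by omega⟩ : Fin (k + 1))⟩)]
  rw [Finset.prod_eq_one]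
  · simp only [g, if_true, mul_zero, Function.iterate_zero, id, one_ne_zero, if_false, mul_one]
    rw [Ti_nat, mul_comm]
  · intro i hi
    rw [Finset.mem_erase, Finset.mem_erase] at hi
    have hi0 : (i : ℕ) ≠ 0 := fun h => hi.2.1 (Fin.ext h)
    have hi1 : (i : ℕ) ≠ 1 := fun h => hi.1 (Fin.ext h)
    simp only [g, hi0, hi1, if_false]

end Pool.Agent.Y476.RM
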