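import Pool.Agent.Y476.RM.Core4
import Pool.Agent.Y941.HM.Spec

/-!
# The central theorem
-/

set_option autoImplicit false
open MeasureTheory Filter Topology
open scoped ENNReal

namespace Pool.Agent.Y476.RM

open Pool.Agent.H716R2

universe u

variable {X : Type u} [MeasurableSpace X] {k : ℕ}

/-- The functional represented by `v = h 0 0` has an absolutely continuous spectral measure. -/
theorem core_spec (hQF : S_QF.{u}) (hWIEN : S_WIEN) (hCONV : S_CONV) (hAHL : S_AHL)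
    (hSPEC : S_SPEC.{u}) {μ : Measure X} [IsProbabilityMeasure μ] {T : X ≃ᵐ X} (hk : 1 ≤ k)
    (hT : MeasurePreserving T μ μ) (hfact : FactSet μ T (k + 1)) {s : ℕ → Fin (k + 2) → ℕ}
    (hs : Spread s) {f : Fin (k + 2) → X → ℂ} (hf : ∀ j, BM (f j)) {C : ℝ} (hC : 1 ≤ C)
    (hfC : ∀ j x, ‖f j x‖ ≤ C) {p q : Fin (k + 2)} (hpq : q ≠ p) (hq0 : ∫ x, f q x ∂μ = 0)
    (𝒰 : Ultrafilter ℕ) (hU : (𝒰 : Filter ℕ) ≤ atTop)
    (h : ℤ → ℤ → Lp ℂ 2 μ) (hh : ∀ a b (g : X → ℂ) (hg : BM g),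
      Tendsto (fun n => ∫ x, g ((⇑T)^[s n p] x) * Rr T s f p q a b n x ∂μ) 𝒰
        (𝓝 (inner ℂ (h a b) (cl μ g hg)))) :
    ∃ σ : Measure TT, IsFiniteMeasure σ ∧ σ ≪ (volume : Measure TT) ∧
      ∀ n : ℤ, ∫ x, (fourier n x : ℂ) ∂σ = inner ℂ (h 0 0) ((U T hT ^ n) (h 0 0)) := by
  -- spectral measures
  have hsp : ∀ j, ∃ σ : Measure TT, IsFiniteMeasure σ ∧
      ∀ n : ℤ, ∫ x, (fourier n x : ℂ) ∂σ = gam μ T (f j) n := by
    intro j
    obtain ⟨σ, h1, h2⟩ := Pool.Agent.Y941.HM.SPA.herglotz (U T hT) (cl μ (f j) (hf j))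
    exact ⟨σ, h1, fun n => by rw [h2 n, gam_inner]⟩
  choose σ hσfin hσ using hsp
  have := hσfin q
  have hat : ∀ x, σ q {x} = 0 := by
    refine hWIEN (σ q) ?_
    simp only [hσ q]
    exact decay hT hk hfact (hf q) hq0
  obtain ⟨τ, hτfin, hτ⟩ := hCONV (Fin (k + 2)) ((Finset.univ.erase p).erase q) σ hσfin
  simp only [hσ] at hτ
  refine hSPEC (Lp ℂ 2 μ) (U T hT) (h 0 0) ?_
  intro g σ₃ N hfin₃ hσ₃ hNm hN0 hN
  set K : ℝ := ‖g‖ ^ 2 + ((C ^ (k + 2)) ^ 2 + C ^ 2) with hK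
  -- the three bounds for `g`
  have e12 : ∀ (S : Finset (ℤ × ℤ)) (co : ℤ × ℤ → ℂ),
      ‖∑ i ∈ S, co i * inner ℂ (h i.1 i.2) g‖ ^ 2 ≤
      K * (∑ i ∈ S, ∑ j ∈ S, co i * (starRingEnd ℂ) (co j) * gam μ T (f q) (i.1 - j.1) *
        ∏ l ∈ (Finset.univ.erase p).erase q, gam μ T (f l) (i.2 - j.2)).re := by
    intro S co
    refine dense_ind μ (fun g => ‖∑ i ∈ S, co i * (inner ℂ (h i.1 i.2) g : ℂ)‖ ^ 2 ≤
      (‖g‖ ^ 2 + ((C ^ (k + 2)) ^ 2 + C ^ 2)) *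
        (∑ i ∈ S, ∑ j ∈ S, co i * (starRingEnd ℂ) (co j) * gam μ T (f q) (i.1 - j.1) *
        ∏ l ∈ (Finset.univ.erase p).erase q, gam μ T (f l) (i.2 - j.2)).re) ?_ ?_ g
    · refine isClosed_le (by fun_prop) (by fun_prop)
    · intro g hg
      refine b12 hQF hT hfact hs hf hpq 𝒰 hU h hh hg S co _ ?_
      rw [cl_norm_sq]
      have : 0 ≤ (C ^ (k + 2)) ^ 2 + C ^ 2 := by positivity
      linarith
  have e13 : ∀ (S : Finset (ℤ × ℤ)) (co : ℤ × ℤ → ℂ),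
      ‖∑ i ∈ S, co i * inner ℂ (h i.1 i.2) g‖ ^ 2 ≤
      K * (∑ i ∈ S, ∑ j ∈ S, co i * (starRingEnd ℂ) (co j) *
        gam μ T (f q) ((i.1 - i.2) - (j.1 - j.2)) *
        inner ℂ g ((U T hT ^ (-i.2 - -j.2)) g)).re := by
    intro S co
    refine dense_ind μ (fun g => ‖∑ i ∈ S, co i * (inner ℂ (h i.1 i.2) g : ℂ)‖ ^ 2 ≤
      (‖g‖ ^ 2 + ((C ^ (k + 2)) ^ 2 + C ^ 2)) *
        (∑ i ∈ S, ∑ j ∈ S, co i * (starRingEnd ℂ) (co j) *
        gam μ T (f q) ((i.1 - i.2) - (j.1 - j.2)) *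
        (inner ℂ g ((U T hT ^ (-i.2 - -j.2)) g) : ℂ)).re) ?_ ?_ g
    · refine isClosed_le (by fun_prop) ?_
      refine Continuous.mul (by fun_prop) (Complex.continuous_re.comp ?_)
      refine continuous_finsetSum _ fun i _ => continuous_finsetSum _ fun j _ => ?_
      refine continuous_const.mul ?_
      exact continuous_id.inner (LinearIsometryEquiv.continuous _)
    · intro g hg
      simp only [gam_inner]
      refine b13 hQF hk hT hfact hs hf hC hfC hpq 𝒰 hU h hh hg S co _ ?_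
      have h1 : 0 ≤ ‖cl μ g hg‖ ^ 2 := by positivity
      have h2 : 0 ≤ C ^ 2 := by positivity
      linarith
  have e23 : ∀ (S : Finset (ℤ × ℤ)) (co : ℤ × ℤ → ℂ),
      ‖∑ i ∈ S, co i * inner ℂ (h i.1 i.2) g‖ ^ 2 ≤
      K * (∑ i ∈ S, ∑ j ∈ S, co i * (starRingEnd ℂ) (co j) *
        (∏ l ∈ (Finset.univ.erase p).erase q, gam μ T (f l) ((i.2 - i.1) - (j.2 - j.1))) *
        inner ℂ g ((U T hT ^ (-i.1 - -j.1)) g)).re := by
    intro S co
    refine dense_ind μ (fun g => ‖∑ i ∈ S, co i * (inner ℂ (h i.1 i.2) g : ℂ)‖ ^ 2 ≤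
      (‖g‖ ^ 2 + ((C ^ (k + 2)) ^ 2 + C ^ 2)) *
        (∑ i ∈ S, ∑ j ∈ S, co i * (starRingEnd ℂ) (co j) *
        (∏ l ∈ (Finset.univ.erase p).erase q, gam μ T (f l) ((i.2 - i.1) - (j.2 - j.1))) *
        (inner ℂ g ((U T hT ^ (-i.1 - -j.1)) g) : ℂ)).re) ?_ ?_ g
    · refine isClosed_le (by fun_prop) ?_
      refine Continuous.mul (by fun_prop) (Complex.continuous_re.comp ?_)
      refine continuous_finsetSum _ fun i _ => continuous_finsetSum _ fun j _ => ?_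
      refine continuous_const.mul ?_
      exact continuous_id.inner (LinearIsometryEquiv.continuous _)
    · intro g hg
      simp only [gam_inner]
      refine b23 hQF hT hfact hs hf hC hfC hpq 𝒰 hU h hh hg S co _ ?_
      have h1 : 0 ≤ ‖cl μ g hg‖ ^ 2 := by positivity
      have h2 : 0 ≤ (C ^ (k + 2)) ^ 2 := by positivity
      linarith
  have hzero := hAHL (σ q) τ σ₃ N (fun a b => inner ℂ (h a b) g) K hat hNm hN0 hN
    (by simpa only [hσ, hτ] using e12) (by simpa only [hσ, hσ₃] using e13)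
    (by simpa only [hσ₃, hτ] using e23) 0 0
  rw [← inner_conj_symm, hzero, map_zero]

end Pool.Agent.Y476.RM
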