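import Pool.Agent.Y476.RM.Core5

/-!
# The central theorem, conclusion
-/

set_option autoImplicit false
open MeasureTheory Filter Topology
open scoped ENNReal

namespace Pool.Agent.Y476.RM

open Pool.Agent.H716R2

universe u

variable {X : Type u} [MeasurableSpace X] {k : ℕ}

/-- The centred case. -/
theorem core_centred (hQF : S_QF.{u}) (hWIEN : S_WIEN) (hCONV : S_CONV) (hDENS : S_DENS)
    (hAHL : S_AHL) (hSPEC : S_SPEC.{u}) {μ : Measure X} [IsProbabilityMeasure μ] {T : X ≃ᵐ X}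
    (hk : 1 ≤ k) (hT : MeasurePreserving T μ μ) (hfact : FactSet μ T (k + 1))
    {s : ℕ → Fin (k + 2) → ℕ} (hs : Spread s) {f : Fin (k + 2) → X → ℂ} (hf : ∀ j, BM (f j))
    {p q : Fin (k + 2)} (hpq : q ≠ p) (hq0 : ∫ x, f q x ∂μ = 0)
    (horth : ∀ h : X → ℂ, Measurable h → (∃ C : ℝ, ∀ x, ‖h x‖ ≤ C) → ACf μ T h →
      ∫ x, f p x * (starRingEnd ℂ) (h x) ∂μ = 0)
    (𝒰 : Ultrafilter ℕ) (hU : (𝒰 : Filter ℕ) ≤ atTop) :
    Tendsto (fun n => ∫ x, ∏ i, f i ((⇑T)^[s n i] x) ∂μ) 𝒰 (𝓝 0) := by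
  obtain ⟨C, hC, hfC⟩ : ∃ C : ℝ, 1 ≤ C ∧ ∀ j x, ‖f j x‖ ≤ C := by
    choose C hC using fun j => (hf j).2
    refine ⟨1 + ∑ j, |C j|, ?_, fun j x => ?_⟩
    · have : 0 ≤ ∑ j, |C j| := Finset.sum_nonneg fun j _ => abs_nonneg _
      linarith
    · have h1 : |C j| ≤ ∑ j, |C j| :=
        Finset.single_le_sum (f := fun j => |C j|) (fun j _ => abs_nonneg _) (Finset.mem_univ j)
      have h2 := (hC j x).trans (le_abs_self _)
      linarith
  have hex : ∀ a b : ℤ, ∃ h : Lp ℂ 2 μ, ∀ (g : X → ℂ) (hg : BM g),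
      Tendsto (fun n => ∫ x, g ((⇑T)^[s n p] x) * Rr T s f p q a b n x ∂μ) 𝒰
        (𝓝 (inner ℂ h (cl μ g hg))) := fun a b =>
    exists_h hT 𝒰 (fun n => s n p) (Rr T s f p q a b) (Rr_BM T s hf p q a b)
      (C * C ^ (k + 2)) (Rr_bound T s hC hfC p q a b)
  choose h hh using hex
  obtain ⟨σ, hσf, hσac, hσ⟩ := core_spec hQF hWIEN hCONV hAHL hSPEC hk hT hfact hs hf hC hfC
    hpq hq0 𝒰 hU h hh
  have hM0 : 0 ≤ C * C ^ (k + 2) := by positivity
  obtain ⟨w, hw, hwv⟩ := bdd_rep μ (h 0 0) (C * C ^ (k + 2)) hM0 (by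
    intro g hg
    refine le_of_tendsto ((hh 0 0 g hg).norm) (Eventually.of_forall fun n => ?_)
    calc ‖∫ x, g ((⇑T)^[s n p] x) * Rr T s f p q 0 0 n x ∂μ‖
        ≤ ∫ x, ‖g ((⇑T)^[s n p] x) * Rr T s f p q 0 0 n x‖ ∂μ := norm_integral_le_integral_norm _
      _ ≤ ∫ x, (C * C ^ (k + 2)) * ‖g ((⇑T)^[s n p] x)‖ ∂μ := by
          refine integral_mono_of_nonneg (Eventually.of_forall fun x => norm_nonneg _)
            (((hg.comp (iter_meas' T _)).integrable μ).norm.const_mul _)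
            (Eventually.of_forall fun x => ?_)
          show ‖g ((⇑T)^[s n p] x) * Rr T s f p q 0 0 n x‖ ≤ _
          rw [norm_mul, mul_comm]
          exact mul_le_mul_of_nonneg_right (Rr_bound T s hC hfC p q 0 0 n x) (norm_nonneg _)
      _ = (C * C ^ (k + 2)) * ∫ x, ‖g x‖ ∂μ := by
          rw [integral_const_mul]
          congr 1
          have := integral_map (μ := μ) (φ := (⇑T)^[s n p]) (hT.iterate _).measurable.aemeasurable
            (f := fun x => ‖g x‖) hg.1.norm.aestronglyMeasurable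
          rw [(hT.iterate _).map_eq] at this
          exact this.symm)
  have hac : ACf μ T w := by
    obtain ⟨g, hg1, hg2⟩ := hDENS σ hσac
    refine ⟨g, hg1, fun n => ?_⟩
    rw [← hg2 n, hσ n, ← hwv, gam_inner]
    unfold gam
    refine integral_congr_ae (Eventually.of_forall fun x => ?_)
    simp only [Ti_nat]
  have h1 := hh 0 0 (f p) (hf p)
  rw [← hwv, cl_inner, horth w hw.1 hw.2 hac] at h1
  refine h1.congr fun n => ?_
  refine integral_congr_ae (Eventually.of_forall fun x => ?_)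
  simp only [Rr, Ti_zero]
  exact (prod_split hpq (fun j => f j ((⇑T)^[s n j] x))).symm

theorem core (hQF : S_QF.{u}) (hWIEN : S_WIEN) (hCONV : S_CONV) (hDENS : S_DENS)
    (hAHL : S_AHL) (hSPEC : S_SPEC.{u}) : S_CORE.{u} := by
  intro X _ μ _ T hT _ k hk hfact s hs f hfm hfb p hp0 horth
  have hf : ∀ j, BM (f j) := fun j => ⟨hfm j, hfb j⟩
  obtain ⟨q, hpq⟩ : ∃ q : Fin (k + 2), q ≠ p := exists_ne p
  rw [tendsto_iff_ultrafilter]
  intro 𝒰 hU
  set m : ℂ := ∫ x, f q x ∂μ with hm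
  -- the centred family and the family with the constant one at the position `q`
  set f1 : Fin (k + 2) → X → ℂ := Function.update f q (fun x => f q x + -m) with hf1
  set f2 : Fin (k + 2) → X → ℂ := Function.update f q (fun _ => 1) with hf2
  have hf1B : ∀ j, BM (f1 j) := by
    intro j
    by_cases hj : j = q
    · subst hj
      rw [hf1, Function.update_self]
      exact (hf j).add (BM.const _)
    · rw [hf1, Function.update_of_ne hj]
      exact hf j
  have hf2B : ∀ j, BM (f2 j) := by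
    intro j
    by_cases hj : j = q
    · subst hj
      rw [hf2, Function.update_self]
      exact BM.const _
    · rw [hf2, Function.update_of_ne hj]
      exact hf j
  have h1 : Tendsto (fun n => ∫ x, ∏ i, f1 i ((⇑T)^[s n i] x) ∂μ) 𝒰 (𝓝 0) := by
    refine core_centred hQF hWIEN hCONV hDENS hAHL hSPEC hk hT hfact hs hf1B hpq ?_ ?_ 𝒰 hU
    · rw [hf1, Function.update_self]
      rw [integral_add ((hf q).integrable μ) (integrable_const _)]
      simp [hm]
    · rw [hf1, Function.update_of_ne hpq.symm]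
      exact horth
  have h2 : Tendsto (fun n => ∫ x, ∏ i, f2 i ((⇑T)^[s n i] x) ∂μ) 𝒰 (𝓝 0) := by
    have h3 := fact_fun_succ (𝕜 := ℂ) hT hfact hs f2 (fun j => (hf2B j).1) (fun j => (hf2B j).2) q
      (fun x => by rw [hf2, Function.update_self])
    have h4 : ∏ i, ∫ x, f2 i x ∂μ = 0 := by
      refine Finset.prod_eq_zero (Finset.mem_univ p) ?_
      rw [hf2, Function.update_of_ne hpq.symm]
      exact hp0
    rw [h4] at h3
    exact h3.mono_left hU
  have h5 := h1.add (h2.const_mul m)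
  rw [mul_zero, add_zero] at h5
  refine h5.congr fun n => ?_
  have hB : ∀ F : Fin (k + 2) → X → ℂ, (∀ j, BM (F j)) →
      Integrable (fun x => ∏ i, F i ((⇑T)^[s n i] x)) μ := fun F hF =>
    (BM.prod _ fun j => (hF j).comp (iter_meas' T _)).integrable μ
  rw [← integral_const_mul, ← integral_add (hB f1 hf1B) ((hB f2 hf2B).const_mul m)]
  refine integral_congr_ae (Eventually.of_forall fun x => ?_)
  simp only
  have e : ∀ F : Fin (k + 2) → X → ℂ, ∏ i, F i ((⇑T)^[s n i] x)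
      = F q ((⇑T)^[s n q] x) * ∏ i ∈ Finset.univ.erase q, F i ((⇑T)^[s n i] x) := fun F =>
    (Finset.mul_prod_erase _ _ (Finset.mem_univ q)).symm
  rw [e f1, e f2, e f]
  have e1 : ∏ i ∈ Finset.univ.erase q, f1 i ((⇑T)^[s n i] x)
      = ∏ i ∈ Finset.univ.erase q, f i ((⇑T)^[s n i] x) := by
    refine Finset.prod_congr rfl fun i hi => ?_
    rw [hf1, Function.update_of_ne (Finset.ne_of_mem_erase hi)]
  have e2 : ∏ i ∈ Finset.univ.erase q, f2 i ((⇑T)^[s n i] x)
      = ∏ i ∈ Finset.univ.erase q, f i ((⇑T)^[s n i] x) := by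
    refine Finset.prod_congr rfl fun i hi => ?_
    rw [hf2, Function.update_of_ne (Finset.ne_of_mem_erase hi)]
  rw [e1, e2, hf1, hf2, Function.update_self, Function.update_self]
  ring

end Pool.Agent.Y476.RM
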