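import Pool.Agent.Y476.RM.Final

/-!
# Testing on bounded functions with absolutely continuous spectral measure
-/

set_option autoImplicit false
open MeasureTheory Filter Topology
open scoped ENNReal

namespace Pool.Agent.Y476.RM

open Pool.Agent.H716R2

universe u

variable {X : Type u} [MeasurableSpace X] {k : ℕ}

/-- The limit correlation as a functional of the function at the position `p` is represented by a
bounded function with absolutely continuous spectral measure. -/
theorem core_rep {μ : Measure X} [IsProbabilityMeasure μ] {T : X ≃ᵐ X}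
    (hk : 1 ≤ k) (hT : MeasurePreserving T μ μ) (hfact : FactSet μ T (k + 1))
    {s : ℕ → Fin (k + 2) → ℕ} (hs : Spread s) {f : Fin (k + 2) → X → ℂ} (hf : ∀ j, BM (f j))
    {p q : Fin (k + 2)} (hpq : q ≠ p) (hq0 : ∫ x, f q x ∂μ = 0)
    (𝒰 : Ultrafilter ℕ) (hU : (𝒰 : Filter ℕ) ≤ atTop) :
    ∃ w : X → ℂ, BM w ∧ ACf μ T w ∧ ∀ g : X → ℂ, BM g →
      Tendsto (fun n => ∫ x, ∏ i, (Function.update f p g) i ((⇑T)^[s n i] x) ∂μ) 𝒰
        (𝓝 (∫ x, g x * (starRingEnd ℂ) (w x) ∂μ)) := by
  obtain ⟨C, hC, hfC⟩ : ∃ C : ℝ, 1 ≤ C ∧ ∀ j x, ‖f j x‖ ≤ C := by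
    choose C hC using fun j => (hf j).2
    refine ⟨1 + ∑ j, |C j|, ?_, fun j x => ?_⟩
    · have : 0 ≤ ∑ j, |C j| := Finset.sum_nonneg fun j _ => abs_nonneg _
      linarith
    · have h1 : |C j| ≤ ∑ j, |C j| :=
        Finset.single_le_sum (f := fun j => |C j|) (fun j _ => abs_nonneg _) (Finset.mem_univ j)
      have h2 := (hC j x).trans (le_abs_self _)
      linarith
  have hex : ∀ a b : ℤ, ∃ h : Lp ℂ 2 μ, ∀ (g : X → ℂ) (hg : BM g),
      Tendsto (fun n => ∫ x, g ((⇑T)^[s n p] x) * Rr T s f p q a b n x ∂μ) 𝒰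
        (𝓝 (inner ℂ h (cl μ g hg))) := fun a b =>
    exists_h hT 𝒰 (fun n => s n p) (Rr T s f p q a b) (Rr_BM T s hf p q a b)
      (C * C ^ (k + 2)) (Rr_bound T s hC hfC p q a b)
  choose h hh using hex
  obtain ⟨σ, hσf, hσac, hσ⟩ := core_spec Pool.Agent.Y759.HM.t_qf Pool.Agent.Y108.HM.t
    Pool.Agent.Y759.HM.t_conv ahl Pool.Agent.Y941.HM.t hk hT hfact hs hf hC hfC
    hpq hq0 𝒰 hU h hh
  have hM0 : 0 ≤ C * C ^ (k + 2) := by positivity
  obtain ⟨w, hw, hwv⟩ := bdd_rep μ (h 0 0) (C * C ^ (k + 2)) hM0 (by
    intro g hg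
    refine le_of_tendsto ((hh 0 0 g hg).norm) (Eventually.of_forall fun n => ?_)
    calc ‖∫ x, g ((⇑T)^[s n p] x) * Rr T s f p q 0 0 n x ∂μ‖
        ≤ ∫ x, ‖g ((⇑T)^[s n p] x) * Rr T s f p q 0 0 n x‖ ∂μ := norm_integral_le_integral_norm _
      _ ≤ ∫ x, (C * C ^ (k + 2)) * ‖g ((⇑T)^[s n p] x)‖ ∂μ := by
          refine integral_mono_of_nonneg (Eventually.of_forall fun x => norm_nonneg _)
            (((hg.comp (iter_meas' T _)).integrable μ).norm.const_mul _)
            (Eventually.of_forall fun x => ?_)
          show ‖g ((⇑T)^[s n p] x) * Rr T s f p q 0 0 n x‖ ≤ _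
          rw [norm_mul, mul_comm]
          exact mul_le_mul_of_nonneg_right (Rr_bound T s hC hfC p q 0 0 n x) (norm_nonneg _)
      _ = (C * C ^ (k + 2)) * ∫ x, ‖g x‖ ∂μ := by
          rw [integral_const_mul]
          congr 1
          have := integral_map (μ := μ) (φ := (⇑T)^[s n p]) (hT.iterate _).measurable.aemeasurable
            (f := fun x => ‖g x‖) hg.1.norm.aestronglyMeasurable
          rw [(hT.iterate _).map_eq] at this
          exact this.symm)
  have hac : ACf μ T w := by
    obtain ⟨g, hg1, hg2⟩ := Pool.Agent.Y759.HM.t_dens σ hσac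
    refine ⟨g, hg1, fun n => ?_⟩
    rw [← hg2 n, hσ n, ← hwv, gam_inner]
    unfold gam
    refine integral_congr_ae (Eventually.of_forall fun x => ?_)
    simp only [Ti_nat]
  refine ⟨w, hw, hac, fun g hg => ?_⟩
  have h1 := hh 0 0 g hg
  rw [← hwv, cl_inner] at h1
  refine h1.congr fun n => ?_
  refine integral_congr_ae (Eventually.of_forall fun x => ?_)
  simp only [Rr, Ti_zero]
  rw [prod_split hpq, Function.update_self, Function.update_of_ne hpq]
  congr 2
  refine Finset.prod_congr rfl fun j hj => ?_
  rw [Finset.mem_erase, Finset.mem_erase] at hj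
  rw [Function.update_of_ne hj.2.1]

/-- Riemann-Lebesgue lemma on the unit interval. -/
theorem rl (g : ℝ → ℝ) :
    Tendsto (fun n : ℕ => ∫ t in (0 : ℝ)..1,
      (g t : ℂ) * Complex.exp (2 * Real.pi * Complex.I * n * t)) atTop (𝓝 0) := by
  have h1 := Real.tendsto_integral_exp_smul_cocompact
    (fun t : ℝ => (Set.Ioc (0 : ℝ) 1).indicator (fun t => (g t : ℂ)) t)
  have h2 : Tendsto (fun n : ℕ => (-(n : ℝ))) atTop (cocompact ℝ) := by
    have h3 : Tendsto (fun n : ℕ => (-(n : ℝ))) atTop atBot :=
      tendsto_neg_atTop_atBot.comp tendsto_natCast_atTop_atTop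
    exact h3.mono_right atBot_le_cocompact
  refine (h1.comp h2).congr fun n => ?_
  rw [intervalIntegral.integral_of_le zero_le_one, ← integral_indicator measurableSet_Ioc]
  simp only [Function.comp]
  refine integral_congr_ae (Eventually.of_forall fun t => ?_)
  simp only
  by_cases ht : t ∈ Set.Ioc (0 : ℝ) 1
  · rw [Set.indicator_of_mem ht, Set.indicator_of_mem ht, Circle.smul_def, smul_eq_mul, mul_comm]
    congr 1
    rw [Real.fourierChar_apply]
    congr 1
    push_cast
    ring
  · rw [Set.indicator_of_notMem ht, Set.indicator_of_notMem ht, smul_zero]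

/-- A bounded function with absolutely continuous spectral measure has mean zero. -/
theorem acf_mean {μ : Measure X} [IsProbabilityMeasure μ] {T : X ≃ᵐ X}
    (hT : MeasurePreserving T μ μ) (hk : 1 ≤ k) (hfact : FactSet μ T (k + 1)) {w : X → ℂ}
    (hw : BM w) (hac : ACf μ T w) : ∫ x, w x ∂μ = 0 := by
  obtain ⟨g, hg1, hg2⟩ := hac
  set m : ℂ := ∫ x, w x ∂μ with hm
  have hcent : BM (fun x => w x + -m) := hw.add (BM.const _)
  have h0 : ∫ x, (w x + -m) ∂μ = 0 := by
    rw [integral_add (hw.integrable μ) (integrable_const _)]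
    simp [hm]
  have h1 := decay hT hk hfact hcent h0
  have h2 : ∀ n : ℕ, gam μ T (fun x => w x + -m) n
      = gam μ T w n + -((starRingEnd ℂ) m * m) := by
    intro n
    unfold gam
    have e : ∀ x, (w (Ti T n x) + -m) * (starRingEnd ℂ) (w x + -m)
        = (w (Ti T n x) * (starRingEnd ℂ) (w x) + -(starRingEnd ℂ) m * w (Ti T n x))
          + (-m * (starRingEnd ℂ) (w x) + m * (starRingEnd ℂ) m) := by
      intro x
      simp only [map_add, map_neg]
      ring
    simp only [e]
    have i1 : Integrable (fun x => w (Ti T n x) * (starRingEnd ℂ) (w x)) μ :=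
      ((hw.comp (Ti_meas T _)).mul hw.conj).integrable μ
    have i2 : Integrable (fun x => -(starRingEnd ℂ) m * w (Ti T n x)) μ :=
      ((hw.comp (Ti_meas T _)).smul _).integrable μ
    have i3 : Integrable (fun x => -m * (starRingEnd ℂ) (w x)) μ := (hw.conj.smul _).integrable μ
    have i12 : Integrable (fun x => w (Ti T n x) * (starRingEnd ℂ) (w x)
        + -(starRingEnd ℂ) m * w (Ti T n x)) μ := i1.add i2
    have i34 : Integrable (fun x => -m * (starRingEnd ℂ) (w x) + m * (starRingEnd ℂ) m) μ :=
      i3.add (integrable_const _)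
    rw [integral_add i12 i34, integral_add i1 i2,
      integral_add i3 (integrable_const _), integral_const_mul, integral_const_mul,
      int_Ti T hT _ hw.1]
    have e4 : ∫ x, (starRingEnd ℂ) (w x) ∂μ = (starRingEnd ℂ) m := integral_conj
    rw [e4, ← hm]
    simp
  have h3 : Tendsto (fun n : ℕ => gam μ T w n) atTop (𝓝 0) := by
    refine (rl g).congr fun n => ?_
    rw [← hg2 n]
    unfold gam
    refine integral_congr_ae (Eventually.of_forall fun x => ?_)
    simp only [Ti_nat]
  have h4 : Tendsto (fun n : ℕ => gam μ T (fun x => w x + -m) n) atTop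
      (𝓝 (0 + -((starRingEnd ℂ) m * m))) := by
    simp only [h2]
    exact h3.add_const _
  have h5 := tendsto_nhds_unique h1 h4
  rw [zero_add, eq_comm, neg_eq_zero, mul_eq_zero] at h5
  rcases h5 with h5 | h5
  · exact (map_eq_zero _).1 h5
  · exact h5

/-- **Criterion.** If the correlations of order `k + 2` of bounded functions with absolutely
continuous spectral measure vanish asymptotically, then all correlations factorise. -/
theorem critA {μ : Measure X} [IsProbabilityMeasure μ] {T : X ≃ᵐ X}
    (hk : 1 ≤ k) (hT : MeasurePreserving T μ μ) (hfact : FactSet μ T (k + 1))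
    (hac : ∀ (s : ℕ → Fin (k + 2) → ℕ), Spread s → ∀ f : Fin (k + 2) → X → ℂ,
      (∀ i, BM (f i)) → (∀ i, ACf μ T (f i)) →
      Tendsto (fun n => ∫ x, ∏ i, f i ((⇑T)^[s n i] x) ∂μ) atTop (𝓝 0)) :
    ∀ (s : ℕ → Fin (k + 2) → ℕ), Spread s → ∀ f : Fin (k + 2) → X → ℂ, (∀ i, BM (f i)) →
      Tendsto (fun n => ∫ x, ∏ i, f i ((⇑T)^[s n i] x) ∂μ) atTop (𝓝 (∏ i, ∫ x, f i x ∂μ)) := by
  classical
  intro s hs f hf
  rw [tendsto_iff_ultrafilter]
  intro 𝒰 hU
  -- first step: mean zero functions
  have step1 : ∀ (E : Finset (Fin (k + 2))) (f : Fin (k + 2) → X → ℂ), (∀ i, BM (f i)) →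
      (∀ i, ∫ x, f i x ∂μ = 0) → (∀ i, i ∉ E → ACf μ T (f i)) →
      Tendsto (fun n => ∫ x, ∏ i, f i ((⇑T)^[s n i] x) ∂μ) 𝒰 (𝓝 0) := by
    intro E
    induction E using Finset.induction_on with
    | empty =>
      intro f hf _ hfac
      exact (hac s hs f hf (fun i => hfac i (Finset.notMem_empty i))).mono_left hU
    | insert p E hpE ih =>
      intro f hf hf0 hfac
      obtain ⟨q, hpq⟩ : ∃ q : Fin (k + 2), q ≠ p := exists_ne p
      obtain ⟨w, hw, hwac, hlim⟩ := core_rep hk hT hfact hs hf hpq (hf0 q) 𝒰 hU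
      have hw0 := acf_mean hT hk hfact hw hwac
      have h1 := ih (Function.update f p w)
        (by
          intro i
          by_cases hi : i = p
          · subst hi
            rw [Function.update_self]
            exact hw
          · rw [Function.update_of_ne hi]
            exact hf i)
        (by
          intro i
          by_cases hi : i = p
          · subst hi
            rw [Function.update_self]
            exact hw0
          · rw [Function.update_of_ne hi]
            exact hf0 i)
        (by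
          intro i hiE
          by_cases hi : i = p
          · subst hi
            rw [Function.update_self]
            exact hwac
          · rw [Function.update_of_ne hi]
            exact hfac i (by simp [hi, hiE]))
      have h2 := tendsto_nhds_unique h1 (hlim w hw)
      have h3 : cl μ w hw = 0 := by
        rw [← inner_self_eq_zero (𝕜 := ℂ), cl_inner]
        exact h2.symm
      have h4 := hlim (f p) (hf p)
      rw [Function.update_eq_self] at h4
      have h5 : ∫ x, f p x * (starRingEnd ℂ) (w x) ∂μ = 0 := by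
        rw [← cl_inner μ hw (hf p), h3, inner_zero_left]
      rw [h5] at h4
      exact h4
  -- second step: all functions
  have step2 : ∀ (E : Finset (Fin (k + 2))) (f : Fin (k + 2) → X → ℂ), (∀ i, BM (f i)) →
      (∀ i, i ∉ E → ∫ x, f i x ∂μ = 0) →
      Tendsto (fun n => ∫ x, ∏ i, f i ((⇑T)^[s n i] x) ∂μ) 𝒰 (𝓝 (∏ i, ∫ x, f i x ∂μ)) := by
    intro E
    induction E using Finset.induction_on with
    | empty =>
      intro f hf hf0
      have h1 := step1 Finset.univ f hf (fun i => hf0 i (Finset.notMem_empty i))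
        (fun i hi => absurd (Finset.mem_univ i) hi)
      have h2 : ∏ i, ∫ x, f i x ∂μ = 0 :=
        Finset.prod_eq_zero (Finset.mem_univ 0) (hf0 0 (Finset.notMem_empty _))
      rw [h2]
      exact h1
    | insert q E hqE ih =>
      intro f hf hf0
      set m : ℂ := ∫ x, f q x ∂μ with hm
      set f1 : Fin (k + 2) → X → ℂ := Function.update f q (fun x => f q x + -m) with hf1
      set f2 : Fin (k + 2) → X → ℂ := Function.update f q (fun _ => 1) with hf2
      have hf1B : ∀ j, BM (f1 j) := by
        intro j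
        by_cases hj : j = q
        · subst hj
          rw [hf1, Function.update_self]
          exact (hf j).add (BM.const _)
        · rw [hf1, Function.update_of_ne hj]
          exact hf j
      have hf2B : ∀ j, BM (f2 j) := by
        intro j
        by_cases hj : j = q
        · subst hj
          rw [hf2, Function.update_self]
          exact BM.const _
        · rw [hf2, Function.update_of_ne hj]
          exact hf j
      have hq0 : ∫ x, f1 q x ∂μ = 0 := by
        rw [hf1, Function.update_self, integral_add ((hf q).integrable μ) (integrable_const _)]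
        simp [hm]
      have h1 := ih f1 hf1B (by
        intro i hi
        by_cases hiq : i = q
        · subst hiq
          exact hq0
        · rw [hf1, Function.update_of_ne hiq]
          exact hf0 i (by simp [hiq, hi]))
      have h1' : ∏ i, ∫ x, f1 i x ∂μ = 0 := Finset.prod_eq_zero (Finset.mem_univ q) hq0
      rw [h1'] at h1
      have h2 : Tendsto (fun n => ∫ x, ∏ i, f2 i ((⇑T)^[s n i] x) ∂μ) 𝒰
          (𝓝 (∏ i, ∫ x, f2 i x ∂μ)) :=
        (fact_fun_succ (𝕜 := ℂ) hT hfact hs f2 (fun j => (hf2B j).1) (fun j => (hf2B j).2) q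
          (fun x => by rw [hf2, Function.update_self])).mono_left hU
      have h5 := h1.add (h2.const_mul m)
      have h6 : m * ∏ i, ∫ x, f2 i x ∂μ = ∏ i, ∫ x, f i x ∂μ := by
        rw [← Finset.mul_prod_erase _ _ (Finset.mem_univ q),
          ← Finset.mul_prod_erase (Finset.univ) (fun i => ∫ x, f i x ∂μ) (Finset.mem_univ q)]
        have e1 : ∫ x, f2 q x ∂μ = 1 := by
          rw [hf2, Function.update_self]
          simp
        rw [e1, one_mul, ← hm]
        congr 1
        refine Finset.prod_congr rfl fun i hi => ?_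
        rw [hf2, Function.update_of_ne (Finset.ne_of_mem_erase hi)]
      rw [zero_add, h6] at h5
      refine h5.congr fun n => ?_
      have hB : ∀ F : Fin (k + 2) → X → ℂ, (∀ j, BM (F j)) →
          Integrable (fun x => ∏ i, F i ((⇑T)^[s n i] x)) μ := fun F hF =>
        (BM.prod _ fun j => (hF j).comp (iter_meas' T _)).integrable μ
      rw [← integral_const_mul, ← integral_add (hB f1 hf1B) ((hB f2 hf2B).const_mul m)]
      refine integral_congr_ae (Eventually.of_forall fun x => ?_)
      simp only
      have e : ∀ F : Fin (k + 2) → X → ℂ, ∏ i, F i ((⇑T)^[s n i] x)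
          = F q ((⇑T)^[s n q] x) * ∏ i ∈ Finset.univ.erase q, F i ((⇑T)^[s n i] x) := fun F =>
        (Finset.mul_prod_erase _ _ (Finset.mem_univ q)).symm
      rw [e f1, e f2, e f]
      have e1 : ∏ i ∈ Finset.univ.erase q, f1 i ((⇑T)^[s n i] x)
          = ∏ i ∈ Finset.univ.erase q, f i ((⇑T)^[s n i] x) := by
        refine Finset.prod_congr rfl fun i hi => ?_
        rw [hf1, Function.update_of_ne (Finset.ne_of_mem_erase hi)]
      have e2 : ∏ i ∈ Finset.univ.erase q, f2 i ((⇑T)^[s n i] x)
          = ∏ i ∈ Finset.univ.erase q, f i ((⇑T)^[s n i] x) := by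
        refine Finset.prod_congr rfl fun i hi => ?_
        rw [hf2, Function.update_of_ne (Finset.ne_of_mem_erase hi)]
      rw [e1, e2, hf1, hf2, Function.update_self, Function.update_self]
      ring
  exact step2 Finset.univ f hf (fun i hi => absurd (Finset.mem_univ i) hi)

end Pool.Agent.Y476.RM
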