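import Pool.Agent.Y476.RM.Crit1

/-!
# Factors carrying all bounded functions with absolutely continuous spectral measure
-/

set_option autoImplicit false
open MeasureTheory Filter Topology
open scoped ENNReal

namespace Pool.Agent.Y476.RM

open Pool.Agent.H716R2

universe u

/-- Finite measures on the circle with the same Fourier coefficients are equal. -/
theorem fourier_ext (m m' : Measure TT) [IsFiniteMeasure m] [IsFiniteMeasure m']
    (h : ∀ n : ℤ, ∫ x, (fourier n x : ℂ) ∂m = ∫ x, (fourier n x : ℂ) ∂m') : m = m' := by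
  have hi : ∀ (ν : Measure TT) [IsFiniteMeasure ν] (φ : C(TT, ℂ)), Integrable (fun x => φ x) ν := by
    intro ν _ φ
    exact Integrable.of_bound φ.continuous.measurable.aestronglyMeasurable ‖φ‖
      (Eventually.of_forall fun x => φ.norm_coe_le_norm x)
  have key : ∀ φ : C(TT, ℂ), ∫ x, φ x ∂m = ∫ x, φ x ∂m' := by
    intro φ
    have hcl : IsClosed {φ : C(TT, ℂ) | ∫ x, φ x ∂m = ∫ x, φ x ∂m'} := by
      have hc : ∀ (ν : Measure TT) [IsFiniteMeasure ν],
          Continuous fun φ : C(TT, ℂ) => ∫ x, φ x ∂ν := by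
        intro ν _
        refine (LipschitzWith.of_dist_le_mul (K := (ν.real Set.univ).toNNReal)
          fun φ ψ => ?_).continuous
        rw [Real.coe_toNNReal _ measureReal_nonneg, dist_eq_norm, dist_eq_norm,
          ← integral_sub (hi ν φ) (hi ν ψ), mul_comm]
        exact norm_integral_le_of_norm_le_const
          (Eventually.of_forall fun x => (φ - ψ).norm_coe_le_norm x)
      exact isClosed_eq (hc m) (hc m')
    have hspan : ∀ φ ∈ Submodule.span ℂ (Set.range (fourier (T := (1 : ℝ)))),
        ∫ x, φ x ∂m = ∫ x, φ x ∂m' := by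
      intro φ hφ
      induction hφ using Submodule.span_induction with
      | mem φ hφ =>
        obtain ⟨n, rfl⟩ := hφ
        exact h n
      | zero => simp
      | add φ ψ _ _ h1 h2 =>
        simp only [ContinuousMap.add_apply]
        rw [integral_add (hi m φ) (hi m ψ), integral_add (hi m' φ) (hi m' ψ), h1, h2]
      | smul c φ _ h1 =>
        simp only [ContinuousMap.smul_apply, smul_eq_mul, integral_const_mul, h1]
    have hd : Dense ((Submodule.span ℂ (Set.range (fourier (T := (1 : ℝ)))) :
        Submodule ℂ C(TT, ℂ)) : Set C(TT, ℂ)) := by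
      rw [Submodule.dense_iff_topologicalClosure_eq_top]
      exact span_fourier_closure_eq_top
    exact hcl.closure_subset_iff.2 hspan (hd φ)
  refine ext_of_forall_integral_eq_of_IsFiniteMeasure fun f => ?_
  have h1 := key ⟨fun x => (f x : ℂ), Complex.continuous_ofReal.comp f.continuous⟩
  simp only [ContinuousMap.coe_mk] at h1
  rw [integral_complex_ofReal, integral_complex_ofReal] at h1
  exact_mod_cast h1

variable {X : Type u} [mX : MeasurableSpace X] {k : ℕ}

theorem gam_neg {μ : Measure X} [IsProbabilityMeasure μ] {T : X ≃ᵐ X}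
    (hT : MeasurePreserving T μ μ) {f : X → ℂ} (hf : BM f) (n : ℤ) :
    gam μ T f (-n) = (starRingEnd ℂ) (gam μ T f n) := by
  rw [← gam_inner T hT hf, ← gam_inner T hT hf, inner_conj_symm]
  have h1 : ∀ (V : Lp ℂ 2 μ ≃ₗᵢ[ℂ] Lp ℂ 2 μ) (x y : Lp ℂ 2 μ), inner ℂ x (V⁻¹ y) = inner ℂ (V x) y := by
    intro V x y
    rw [← V.inner_map_map x (V⁻¹ y)]
    congr 1
    exact V.apply_symm_apply y
  rw [zpow_neg, h1]

/-- A spectral measure of a function satisfying `ACf` is absolutely continuous. -/
theorem ac_of_acf {μ : Measure X} [IsProbabilityMeasure μ] {T : X ≃ᵐ X}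
    (hT : MeasurePreserving T μ μ) {w : X → ℂ} (hw : BM w) (hac : ACf μ T w) (σ : Measure TT)
    [IsFiniteMeasure σ] (hσ : ∀ n : ℤ, ∫ x, (fourier n x : ℂ) ∂σ = gam μ T w n) :
    σ ≪ (volume : Measure TT) := by
  obtain ⟨g, hg1, hg2⟩ := hac
  have hgi : Integrable g (volume.restrict (Set.Ioc (0 : ℝ) 1)) :=
    (intervalIntegrable_iff_integrableOn_Ioc_of_le zero_le_one).1 hg1
  -- the two parts of the density
  set ρ : Measure ℝ := volume.restrict (Set.Ioc (0 : ℝ) 1) with hρ
  set mp : Measure TT := (ρ.withDensity fun t => ENNReal.ofReal (g t)).map (fun t : ℝ => (t : TT))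
    with hmp
  set mm : Measure TT := (ρ.withDensity fun t => ENNReal.ofReal (-g t)).map (fun t : ℝ => (t : TT))
    with hmm
  have hmk : Measurable (fun t : ℝ => (t : TT)) := (AddCircle.continuous_mk' (1 : ℝ)).measurable
  have hfp : IsFiniteMeasure (ρ.withDensity fun t => ENNReal.ofReal (g t)) :=
    isFiniteMeasure_withDensity_ofReal hgi.2
  have hfm : IsFiniteMeasure (ρ.withDensity fun t => ENNReal.ofReal (-g t)) :=
    isFiniteMeasure_withDensity_ofReal hgi.neg.2
  have hfp' : IsFiniteMeasure mp := by rw [hmp]; infer_instance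
  have hfm' : IsFiniteMeasure mm := by rw [hmm]; infer_instance
  have hac : mp ≪ (volume : Measure TT) := by
    have h1 : mp ≪ ρ.map (fun t : ℝ => (t : TT)) :=
      (withDensity_absolutelyContinuous _ _).map hmk
    have h2 : ρ.map (fun t : ℝ => (t : TT)) = (volume : Measure TT) := by
      have := (AddCircle.measurePreserving_mk (1 : ℝ) 0).map_eq
      rw [zero_add] at this
      exact this
    rwa [h2] at h1
  -- Fourier coefficients of the parts
  have hden : ∀ (φ : ℝ → ℝ), Integrable φ ρ → ∀ n : ℤ,
      ∫ x, (fourier n x : ℂ) ∂((ρ.withDensity fun t => ENNReal.ofReal (φ t)).map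
        (fun t : ℝ => (t : TT))) = ∫ t, ((max (φ t) 0 : ℝ) : ℂ) * fourier n (t : TT) ∂ρ := by
    intro φ hφ n
    rw [integral_map hmk.aemeasurable (fourier n).continuous.measurable.aestronglyMeasurable]
    rw [integral_withDensity_eq_integral_toReal_smul₀ hφ.1.aemeasurable.ennreal_ofReal
      (Eventually.of_forall fun t => ENNReal.ofReal_lt_top)]
    refine integral_congr_ae (Eventually.of_forall fun t => ?_)
    simp only [ENNReal.toReal_ofReal', Complex.real_smul]
  have hcoef : ∀ n : ℕ, ∫ x, (fourier (n : ℤ) x : ℂ) ∂mp - ∫ x, (fourier (n : ℤ) x : ℂ) ∂mm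
      = gam μ T w n := by
    intro n
    have h3 : gam μ T w n = ∫ t, (g t : ℂ) * fourier (n : ℤ) (t : TT) ∂ρ := by
      have h4 := hg2 n
      rw [intervalIntegral.integral_of_le zero_le_one] at h4
      have h5 : gam μ T w n = ∫ x, w ((⇑T)^[n] x) * (starRingEnd ℂ) (w x) ∂μ := by
        unfold gam
        simp only [Ti_nat]
      rw [h5, h4]
      refine integral_congr_ae (Eventually.of_forall fun t => ?_)
      simp only
      rw [fourier_coe_apply]
      congr 2
      push_cast
      ring
    rw [h3, hmp, hmm, hden g hgi, hden (fun t => -g t) hgi.neg, ← integral_sub]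
    · refine integral_congr_ae (Eventually.of_forall fun t => ?_)
      simp only
      rw [← sub_mul]
      congr 1
      have : max (g t) 0 - max (-g t) 0 = g t := by
        rcases le_total (g t) 0 with h | h
        · rw [max_eq_right h, max_eq_left (by linarith)]; ring
        · rw [max_eq_left h, max_eq_right (by linarith)]; ring
      rw [← Complex.ofReal_sub, this]
    · have h6 : Integrable (fun t => ((max (g t) 0 : ℝ) : ℂ)) ρ := (hgi.pos_part).ofReal
      refine h6.mul_bdd (c := 1) ?_ (Eventually.of_forall fun t => ?_)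
      · exact ((fourier (n : ℤ)).continuous.comp (AddCircle.continuous_mk' (1 : ℝ))).measurable.aestronglyMeasurable
      · rw [fourier_apply]
        exact (Circle.norm_coe _).le
    · have h6 : Integrable (fun t => ((max (-g t) 0 : ℝ) : ℂ)) ρ := (hgi.neg.pos_part).ofReal
      refine h6.mul_bdd (c := 1) ?_ (Eventually.of_forall fun t => ?_)
      · exact ((fourier (n : ℤ)).continuous.comp (AddCircle.continuous_mk' (1 : ℝ))).measurable.aestronglyMeasurable
      · rw [fourier_apply]
        exact (Circle.norm_coe _).le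
  have hconj : ∀ (ν : Measure TT) [IsFiniteMeasure ν] (n : ℤ),
      ∫ x, (fourier (-n) x : ℂ) ∂ν = (starRingEnd ℂ) (∫ x, (fourier n x : ℂ) ∂ν) := by
    intro ν _ n
    rw [← integral_conj]
    refine integral_congr_ae (Eventually.of_forall fun x => ?_)
    simp only [fourier_neg]
  have hcoefZ : ∀ n : ℤ, ∫ x, (fourier n x : ℂ) ∂mp - ∫ x, (fourier n x : ℂ) ∂mm
      = gam μ T w n := by
    intro n
    obtain ⟨m, rfl | rfl⟩ := n.eq_nat_or_neg
    · exact hcoef m
    · rw [hconj mp, hconj mm, ← map_sub, hcoef m, gam_neg hT hw]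
  have heq : σ + mm = mp := by
    refine fourier_ext _ _ fun n => ?_
    have hi : ∀ (ν : Measure TT) [IsFiniteMeasure ν], Integrable (fun x => (fourier n x : ℂ)) ν := by
      intro ν _
      exact Integrable.of_bound (fourier n).continuous.measurable.aestronglyMeasurable
        ‖(fourier n : C(TT, ℂ))‖ (Eventually.of_forall fun x => (fourier n).norm_coe_le_norm x)
    rw [integral_add_measure (hi σ) (hi mm), hσ n, ← hcoefZ n]
    ring
  have hle : σ ≤ mp := by
    rw [← heq]
    exact Measure.le_add_right le_rfl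
  exact (Measure.absolutelyContinuous_of_le hle).trans hac

end Pool.Agent.Y476.RM
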