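import Pool.Agent.Y476.RM.Crit2

/-!
# Factors carrying all bounded functions with absolutely continuous spectral measure, continued
-/

set_option autoImplicit false
open MeasureTheory Filter Topology
open scoped ENNReal

namespace Pool.Agent.Y476.RM

open Pool.Agent.H716R2

universe u

section one

variable {X : Type u} [MeasurableSpace X] {k : ℕ}

theorem factSet_of_fun {μ : Measure X} [IsProbabilityMeasure μ] {T : X ≃ᵐ X} {r : ℕ}
    (h : ∀ (s : ℕ → Fin r → ℕ), Spread s → ∀ f : Fin r → X → ℂ, (∀ i, BM (f i)) →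
      Tendsto (fun n => ∫ x, ∏ i, f i ((⇑T)^[s n i] x) ∂μ) atTop (𝓝 (∏ i, ∫ x, f i x ∂μ))) :
    FactSet μ T r := by
  intro s hs B hB
  have hf : ∀ i, BM ((B i).indicator (fun _ => (1 : ℂ))) := by
    intro i
    refine ⟨measurable_const.indicator (hB i), 1, fun x => ?_⟩
    by_cases hx : x ∈ B i
    · simp [hx]
    · simp [hx]
  have h3 := h s hs (fun i => (B i).indicator (fun _ => (1 : ℂ))) hf
  have e1 : ∀ n, ∫ x, ∏ i, (B i).indicator (fun _ => (1 : ℂ)) ((⇑T)^[s n i] x) ∂μ
      = ((μ.real (⋂ i, (⇑T)^[s n i] ⁻¹' B i) : ℝ) : ℂ) := by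
    intro n
    simp only [prod_indicator_eq]
    rw [integral_indicator (MeasurableSet.iInter (fun i => (iter_meas T (s n i)) (hB i)))]
    simp
  have e2 : ∏ i, ∫ x, (B i).indicator (fun _ => (1 : ℂ)) x ∂μ
      = ((∏ i, μ.real (B i) : ℝ) : ℂ) := by
    rw [Complex.ofReal_prod]
    refine Finset.prod_congr rfl (fun i _ => ?_)
    rw [integral_indicator (hB i)]
    simp
  simp only [e1, e2] at h3
  exact (Complex.continuous_re.tendsto _).comp h3

theorem mixK_of_factSet {μ : Measure X} {T : X ≃ᵐ X} (hfact : FactSet μ T (k + 1)) :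
    MixK μ T k := by
  intro A hA ε hε
  obtain ⟨N, hN⟩ := forall_of_spread (r := k) (fun s : Fin (k + 1) → ℕ =>
    |μ.real (⋂ i, (⇑T)^[s i] ⁻¹' A i) - ∏ i : Fin (k + 1), μ.real (A i)| < ε)
    (fun s hs => by
      have h1 := hfact s hs (fun i => A i) (fun i => hA _)
      rw [Metric.tendsto_atTop] at h1
      obtain ⟨n0, hn0⟩ := h1 ε hε
      filter_upwards [eventually_ge_atTop n0] with n hn
      have := hn0 n hn
      rwa [Real.dist_eq] at this)
  refine ⟨N, fun m hm => ?_⟩
  rw [iInter_range_eq, Finset.prod_range]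
  exact hN m hm

end one

variable {X : Type u} {m mX : MeasurableSpace X} {k : ℕ}

theorem exists_projC (μ : Measure X) [IsProbabilityMeasure μ]
    (hm : m ≤ mX) {w : X → ℂ} (hw : @BM X mX w) :
    ∃ e : X → ℂ, Measurable[m] e ∧ (∃ C : ℝ, ∀ x, ‖e x‖ ≤ C) ∧
      ∀ h : X → ℂ, Measurable[m] h → (∃ C : ℝ, ∀ x, ‖h x‖ ≤ C) →
        ∫ x, (w x - e x) * (starRingEnd ℂ) (h x) ∂μ = 0 := by
  obtain ⟨C, hC⟩ := hw.2
  set D : ℝ := |C| + 1 with hD
  have hD0 : 0 < D := by positivity
  have hCD : ∀ x, ‖w x‖ ≤ D := fun x => ((hC x).trans (le_abs_self _)).trans (by rw [hD]; linarith)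
  obtain ⟨e1, he1, hb1, ho1⟩ := Pool.Agent.Y93.HM.exists_proj μ hm (fun x => (w x).re / D)
    ((Complex.measurable_re.comp hw.1).div_const D) (fun x => by
      rw [abs_div, abs_of_pos hD0, div_le_one hD0]
      exact (Complex.abs_re_le_norm _).trans (hCD x))
  obtain ⟨e2, he2, hb2, ho2⟩ := Pool.Agent.Y93.HM.exists_proj μ hm (fun x => (w x).im / D)
    ((Complex.measurable_im.comp hw.1).div_const D) (fun x => by
      rw [abs_div, abs_of_pos hD0, div_le_one hD0]
      exact (Complex.abs_im_le_norm _).trans (hCD x))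
  have hm1 : Measurable e1 := he1.mono hm le_rfl
  have hm2 : Measurable e2 := he2.mono hm le_rfl
  refine ⟨fun x => (D : ℂ) * (e1 x + Complex.I * e2 x), ?_, ⟨D * (1 + 1), fun x => ?_⟩, ?_⟩
  · exact (measurable_const.mul (he1.add (measurable_const.mul he2)))
  · rw [norm_mul, Complex.norm_real, Real.norm_eq_abs, abs_of_pos hD0]
    refine mul_le_mul_of_nonneg_left ((norm_add_le _ _).trans (add_le_add (hb1 x) ?_)) hD0.le
    rw [norm_mul, Complex.norm_I, one_mul]
    exact hb2 x
  · intro h hh hb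
    have h1 := ho1 h hh hb
    have h2 := ho2 h hh hb
    obtain ⟨C', hC'⟩ := hb
    have hhB : @BM X mX h := ⟨hh.mono hm le_rfl, C', hC'⟩
    have hB1 : @BM X mX (fun x => (((w x).re / D : ℝ) : ℂ) - e1 x) := by
      refine ⟨(Complex.measurable_ofReal.comp
        ((Complex.measurable_re.comp hw.1).div_const D)).sub hm1, 1 + 1, fun x => ?_⟩
      refine (norm_sub_le _ _).trans (add_le_add ?_ (hb1 x))
      rw [Complex.norm_real, Real.norm_eq_abs, abs_div, abs_of_pos hD0, div_le_one hD0]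
      exact (Complex.abs_re_le_norm _).trans (hCD x)
    have hB2 : @BM X mX (fun x => (((w x).im / D : ℝ) : ℂ) - e2 x) := by
      refine ⟨(Complex.measurable_ofReal.comp
        ((Complex.measurable_im.comp hw.1).div_const D)).sub hm2, 1 + 1, fun x => ?_⟩
      refine (norm_sub_le _ _).trans (add_le_add ?_ (hb2 x))
      rw [Complex.norm_real, Real.norm_eq_abs, abs_div, abs_of_pos hD0, div_le_one hD0]
      exact (Complex.abs_im_le_norm _).trans (hCD x)
    have i1 := ((hB1.mul hhB.conj).smul (D : ℂ)).integrable μ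
    have i2 := ((hB2.mul hhB.conj).smul ((D : ℂ) * Complex.I)).integrable μ
    have e : ∀ x, (w x - (D : ℂ) * (e1 x + Complex.I * e2 x)) * (starRingEnd ℂ) (h x)
        = (D : ℂ) * (((((w x).re / D : ℝ) : ℂ) - e1 x) * (starRingEnd ℂ) (h x))
          + ((D : ℂ) * Complex.I) *
            (((((w x).im / D : ℝ) : ℂ) - e2 x) * (starRingEnd ℂ) (h x)) := by
      intro x
      have hDc : (D : ℂ) ≠ 0 := by exact_mod_cast hD0.ne'
      have h3 : w x = (D : ℂ) * ((((w x).re / D : ℝ) : ℂ) + Complex.I * (((w x).im / D : ℝ) : ℂ)) := by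
        push_cast
        rw [mul_add, mul_div_cancel₀ _ hDc, mul_left_comm, mul_div_cancel₀ _ hDc, mul_comm Complex.I]
        exact (Complex.re_add_im (w x)).symm
      conv_lhs => rw [h3]
      ring
    simp only [e]
    rw [integral_add i1 i2, integral_const_mul, integral_const_mul, h1, h2, mul_zero, mul_zero,
      add_zero]

theorem Ti_measC {T : X ≃ᵐ X} (h1 : Measurable[m, m] (⇑T))
    (h2 : Measurable[m, m] (⇑T.symm)) (a : ℤ) : Measurable[m, m] (Ti T a) := by
  induction a with
  | zero =>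
    have : Ti T 0 = id := by ext x; exact Ti_zero T x
    rw [this]
    exact measurable_id
  | succ n ih =>
    have : Ti T ((n : ℤ) + 1) = Ti T n ∘ T := by
      ext x
      rw [Ti_add, Ti_one]
      rfl
    rw [this]
    exact ih.comp h1
  | pred n ih =>
    have : Ti T (-(n : ℤ) - 1) = Ti T (-n) ∘ T.symm := by
      ext x
      rw [sub_eq_add_neg, Ti_add, Ti_neg_one]
      rfl
    rw [this]
    exact ih.comp h2

/-- A bounded function with absolutely continuous spectral measure is measurable with respect to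
the factor. -/
theorem ac_meas {μ : Measure X} [IsProbabilityMeasure μ] {T : X ≃ᵐ X}
    (hT : MeasurePreserving T μ μ) (hm : m ≤ mX)
    (h1 : Measurable[m, m] (⇑T)) (h2 : Measurable[m, m] (⇑T.symm))
    (horth : ∀ f : X → ℂ, @BM X mX f → ACf μ T f →
      (∀ E : Set X, MeasurableSet[m] E → ∫ x in E, f x ∂μ = 0) → f =ᵐ[μ] 0)
    {w : X → ℂ} (hw : @BM X mX w) (hac : ACf μ T w) :
    ∃ e : X → ℂ, Measurable[m] e ∧ (∃ C : ℝ, ∀ x, ‖e x‖ ≤ C) ∧ w =ᵐ[μ] e := by
  obtain ⟨e, he, heb, ho⟩ := exists_projC μ hm hw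
  refine ⟨e, he, heb, ?_⟩
  have heB : @BM X mX e := ⟨he.mono hm le_rfl, heb⟩
  have hfB : @BM X mX (fun x => w x + (-1 : ℂ) * e x) := hw.add (heB.smul (-1))
  have hfe : ∀ x, w x + (-1 : ℂ) * e x = w x - e x := fun x => by ring
  set f : X → ℂ := fun x => w x - e x with hf
  have hfB' : @BM X mX f := by simpa only [hfe] using hfB
  -- cross terms
  have hc1 : ∀ n : ℤ, ∫ x, f (Ti T n x) * (starRingEnd ℂ) (e x) ∂μ = 0 := by
    intro n
    have h3 := ho (fun x => e (Ti T (-n) x)) (he.comp (Ti_measC h1 h2 (-n)))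
      (heb.imp fun C hC x => hC _)
    have h4 : ∫ x, (w x - e x) * (starRingEnd ℂ) (e (Ti T (-n) x)) ∂μ
        = ∫ x, f (Ti T n x) * (starRingEnd ℂ) (e x) ∂μ := by
      rw [← int_Ti T hT n (f := fun x => (w x - e x) * (starRingEnd ℂ) (e (Ti T (-n) x)))]
      · refine integral_congr_ae (Eventually.of_forall fun x => ?_)
        simp only [hf]
        rw [← Ti_add, neg_add_cancel, Ti_zero]
      · exact (hfB'.mul (heB.comp (Ti_meas T _)).conj).1
    rw [← h4]
    exact h3
  have hc2 : ∀ n : ℤ, ∫ x, e (Ti T n x) * (starRingEnd ℂ) (f x) ∂μ = 0 := by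
    intro n
    have h3 := ho (fun x => e (Ti T n x)) (he.comp (Ti_measC h1 h2 n))
      (heb.imp fun C hC x => hC _)
    have h4 : ∫ x, e (Ti T n x) * (starRingEnd ℂ) (f x) ∂μ
        = (starRingEnd ℂ) (∫ x, (w x - e x) * (starRingEnd ℂ) (e (Ti T n x)) ∂μ) := by
      rw [← integral_conj]
      refine integral_congr_ae (Eventually.of_forall fun x => ?_)
      simp only [map_mul, RingHomCompTriple.comp_apply, RingHom.id_apply, hf]
      ring
    rw [h4, h3, map_zero]
  have hgam : ∀ n : ℤ, gam μ T w n = gam μ T e n + gam μ T f n := by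
    intro n
    unfold gam
    have e0 : ∀ x, w (Ti T n x) * (starRingEnd ℂ) (w x)
        = (e (Ti T n x) * (starRingEnd ℂ) (e x) + f (Ti T n x) * (starRingEnd ℂ) (f x))
          + (f (Ti T n x) * (starRingEnd ℂ) (e x) + e (Ti T n x) * (starRingEnd ℂ) (f x)) := by
      intro x
      simp only [hf, map_sub]
      ring
    simp only [e0]
    have i1 : Integrable (fun x => e (Ti T n x) * (starRingEnd ℂ) (e x)) μ :=
      ((heB.comp (Ti_meas T _)).mul heB.conj).integrable μ
    have i2 : Integrable (fun x => f (Ti T n x) * (starRingEnd ℂ) (f x)) μ :=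
      ((hfB'.comp (Ti_meas T _)).mul hfB'.conj).integrable μ
    have i3 : Integrable (fun x => f (Ti T n x) * (starRingEnd ℂ) (e x)) μ :=
      ((hfB'.comp (Ti_meas T _)).mul heB.conj).integrable μ
    have i4 : Integrable (fun x => e (Ti T n x) * (starRingEnd ℂ) (f x)) μ :=
      ((heB.comp (Ti_meas T _)).mul hfB'.conj).integrable μ
    have i12 : Integrable (fun x => e (Ti T n x) * (starRingEnd ℂ) (e x)
      + f (Ti T n x) * (starRingEnd ℂ) (f x)) μ := i1.add i2
    have i34 : Integrable (fun x => f (Ti T n x) * (starRingEnd ℂ) (e x)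
      + e (Ti T n x) * (starRingEnd ℂ) (f x)) μ := i3.add i4
    rw [integral_add i12 i34, integral_add i1 i2, integral_add i3 i4, hc1, hc2]
    simp
  -- spectral measures
  obtain ⟨σe, hσef, hσe⟩ := Pool.Agent.Y941.HM.SPA.herglotz (U T hT) (cl μ e heB)
  obtain ⟨σf, hσff, hσf⟩ := Pool.Agent.Y941.HM.SPA.herglotz (U T hT) (cl μ f hfB')
  have hi : ∀ (ν : Measure TT) [IsFiniteMeasure ν] (n : ℤ),
      Integrable (fun x => (fourier n x : ℂ)) ν := by
    intro ν _ n
    exact Integrable.of_bound (fourier n).continuous.measurable.aestronglyMeasurable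
      ‖(fourier n : C(TT, ℂ))‖ (Eventually.of_forall fun x => (fourier n).norm_coe_le_norm x)
  have hsum : σe + σf ≪ (volume : Measure TT) := by
    refine ac_of_acf hT hw hac (σe + σf) fun n => ?_
    rw [integral_add_measure (hi σe n) (hi σf n), hσe n, hσf n, gam_inner, gam_inner, hgam n]
  have hσfac : σf ≪ (volume : Measure TT) :=
    (Measure.absolutelyContinuous_of_le (Measure.le_add_left le_rfl)).trans hsum
  obtain ⟨g, hg1, hg2⟩ := Pool.Agent.Y759.HM.t_dens σf hσfac
  have hfac : ACf μ T f := by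
    refine ⟨g, hg1, fun n => ?_⟩
    rw [← hg2 n, hσf n, gam_inner]
    unfold gam
    simp only [Ti_nat]
  have h0 := horth f hfB' hfac (by
    intro E hE
    have h3 := ho (E.indicator fun _ => 1) (measurable_const.indicator hE) ⟨1, fun x => by
      by_cases hx : x ∈ E <;> simp [hx]⟩
    rw [← integral_indicator (hm E hE)]
    rw [← h3]
    refine integral_congr_ae (Eventually.of_forall fun x => ?_)
    simp only [hf]
    by_cases hx : x ∈ E <;> simp [hx])
  filter_upwards [h0] with x hx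
  have : w x - e x = 0 := hx
  exact sub_eq_zero.1 this

/-- One step of the main theorem for a factor carrying all bounded functions with absolutely
continuous spectral measure. -/
theorem stepC {μ : Measure X} [IsProbabilityMeasure μ] {T : X ≃ᵐ X}
    (hT : MeasurePreserving T μ μ) (hm : m ≤ mX)
    (h1 : Measurable[m, m] (⇑T)) (h2 : Measurable[m, m] (⇑T.symm))
    (horth : ∀ f : X → ℂ, @BM X mX f → ACf μ T f →
      (∀ E : Set X, MeasurableSet[m] E → ∫ x in E, f x ∂μ = 0) → f =ᵐ[μ] 0)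
    (hk : 1 ≤ k) (hfact : FactSet μ T (k + 1)) (hOn : MixOn μ T (k + 1) m) :
    FactSet μ T (k + 2) := by
  refine factSet_of_fun (critA hk hT hfact ?_)
  intro s hs f hf hac
  choose e he heb hfe using fun i => ac_meas hT hm h1 h2 horth (hf i) (hac i)
  have h3 := @Pool.Agent.Y93.HM.factor_fun X X mX m μ _ T hT
    (@MeasurableEquiv.mk X X m m T.toEquiv h1 h2)
    id (fun E hE => hm E hE) (fun x => rfl) (k + 1) hOn s hs e he heb
  have h4 : ∏ i, ∫ x, e i (id x) ∂μ = 0 := by
    refine Finset.prod_eq_zero (Finset.mem_univ 0) ?_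
    have h5 := acf_mean hT hk hfact (hf 0) (hac 0)
    rw [← h5]
    exact (integral_congr_ae (hfe 0)).symm
  rw [h4] at h3
  refine h3.congr fun n => ?_
  refine integral_congr_ae ?_
  have h6 : ∀ i, ∀ᵐ x ∂μ, f i ((⇑T)^[s n i] x) = e i ((⇑T)^[s n i] x) := fun i =>
    (hT.iterate (s n i)).quasiMeasurePreserving.ae (hfe i)
  filter_upwards [ae_all_iff.2 h6] with x hx
  exact (Finset.prod_congr rfl fun i _ => hx i).symm

theorem mainC {μ : Measure X} [IsProbabilityMeasure μ] {T : X ≃ᵐ X}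
    (hT : MeasurePreserving T μ μ) (hmix : MixK μ T 1) (hm : m ≤ mX)
    (h1 : Measurable[m, m] (⇑T)) (h2 : Measurable[m, m] (⇑T.symm))
    (horth : ∀ f : X → ℂ, @BM X mX f → ACf μ T f →
      (∀ E : Set X, MeasurableSet[m] E → ∫ x in E, f x ∂μ = 0) → f =ᵐ[μ] 0) (k : ℕ) :
    MixOn μ T k m → MixK μ T k := by
  induction k with
  | zero =>
    intro _ A _ ε hε
    refine ⟨0, fun m _ => ?_⟩
    simpa using hε
  | succ k ih =>
    intro hOn
    rcases Nat.eq_zero_or_pos k with rfl | hk
    · exact hmix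
    · have hfact := factSet_of_mixK hT (ih (Pool.Agent.Y93.HM.mixOn_pred (μ := μ) hOn))
      exact mixK_of_factSet (stepC hT hm h1 h2 horth hk hfact hOn)

end Pool.Agent.Y476.RM
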