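import Pool.Agent.Y476.RM.Crit3

/-!
# The criterion in terms of gaps
-/

set_option autoImplicit false
open MeasureTheory Filter Topology
open scoped ENNReal

namespace Pool.Agent.Y476.RM

open Pool.Agent.H716R2

universe u

variable {X : Type u} [MeasurableSpace X] {k : ℕ}

/-- The correlations of `r + 1` bounded functions with absolutely continuous spectral measure
tend to zero. -/
def ACorr (μ : Measure X) (T : X → X) (r : ℕ) : Prop :=
  ∀ f : ℕ → X → ℂ, (∀ i, BM (f i) ∧ ACf μ T (f i)) → ∀ ε : ℝ, 0 < ε → ∃ N : ℕ, ∀ d : ℕ → ℕ,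
    (∀ j < r, N ≤ d j) →
      ‖∫ x, ∏ i ∈ Finset.range (r + 1), f i (T^[∑ j ∈ Finset.range i, d j] x) ∂μ‖ < ε

theorem acorr_of_mixK {μ : Measure X} [IsProbabilityMeasure μ] {T : X ≃ᵐ X}
    (hT : MeasurePreserving T μ μ) {r : ℕ} (hr : 1 ≤ r) (h : MixK μ T r) : ACorr μ T r := by
  intro f hf ε hε
  have hfact := factSet_of_mixK hT h
  obtain ⟨N, hN⟩ := forall_of_spread (r := r) (fun s : Fin (r + 1) → ℕ =>
    ‖∫ x, ∏ i : Fin (r + 1), f i ((⇑T)^[s i] x) ∂μ‖ < ε)
    (fun s hs => by
      have h1 := fact_fun (𝕜 := ℂ) hT hfact hs (fun i => f i) (fun i => (hf i).1.1)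
        (fun i => (hf i).1.2)
      have h2 : ∏ i : Fin (r + 1), ∫ x, f i x ∂μ = 0 :=
        Finset.prod_eq_zero (Finset.mem_univ 0) (acf_mean hT hr hfact (hf _).1 (hf _).2)
      rw [h2] at h1
      have h3 := h1.norm
      rw [norm_zero] at h3
      exact h3.eventually (gt_mem_nhds hε))
  refine ⟨N, fun d hd => ?_⟩
  simp only [Finset.prod_range]
  exact hN d hd

theorem spread_of_acorr {μ : Measure X} [IsProbabilityMeasure μ] {T : X ≃ᵐ X}
    (hT : MeasurePreserving T μ μ) {r : ℕ} (h : ACorr μ T r) (s : ℕ → Fin (r + 1) → ℕ)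
    (hs : Spread s) (f : Fin (r + 1) → X → ℂ) (hf : ∀ i, BM (f i)) (hac : ∀ i, ACf μ T (f i)) :
    Tendsto (fun n => ∫ x, ∏ i, f i ((⇑T)^[s n i] x) ∂μ) atTop (𝓝 0) := by
  let f' : ℕ → X → ℂ := fun i => f ⟨min i r, by omega⟩
  have hf' : ∀ i, BM (f' i) ∧ ACf μ T (f' i) := fun i => ⟨hf _, hac _⟩
  have hff : ∀ i : Fin (r + 1), f' i = f i := by
    intro i
    simp only [f']
    congr 1
    apply Fin.ext
    simp only
    omega
  rw [Metric.tendsto_atTop]
  intro ε hε
  obtain ⟨N, hN⟩ := h f' hf' ε hε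
  obtain ⟨n0, hn0⟩ := eventually_atTop.1 (hs N)
  refine ⟨n0, fun n hn => ?_⟩
  have hgap := hn0 n hn
  let sn : ℕ → ℕ := fun i => s n ⟨min i r, by omega⟩
  have hmono : Monotone sn := by
    intro i j hij
    simp only [sn]
    rcases Nat.lt_or_ge (min i r) (min j r) with h1 | h1
    · have := hgap ⟨min i r, by omega⟩ ⟨min j r, by omega⟩ h1
      omega
    · have : min i r = min j r := by omega
      simp [this]
  have hsn : ∀ i : Fin (r + 1), sn i = s n i := by
    intro i
    simp only [sn]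
    congr 1
    apply Fin.ext
    simp only
    omega
  have hm := hN (fun j => sn (j + 1) - sn j) (by
    intro j hj
    have := hgap ⟨min j r, by omega⟩ ⟨min (j + 1) r, by omega⟩ (by
      change min j r < min (j + 1) r
      omega)
    simp only [sn]
    omega)
  simp only [Finset.sum_range_tsub hmono] at hm
  rw [dist_zero_right]
  have e1 : ∫ x, ∏ i ∈ Finset.range (r + 1), f' i ((⇑T)^[sn i - sn 0] x) ∂μ
      = ∫ x, ∏ i, f i ((⇑T)^[s n i] x) ∂μ := by
    have hmeas : Measurable fun x => ∏ i ∈ Finset.range (r + 1), f' i ((⇑T)^[sn i - sn 0] x) :=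
      Finset.measurable_prod _ fun i _ => (hf' i).1.1.comp (iter_meas T _)
    have h2 := integral_map (μ := μ) (φ := (⇑T)^[sn 0]) (iter_meas T _).aemeasurable
      (f := fun x => ∏ i ∈ Finset.range (r + 1), f' i ((⇑T)^[sn i - sn 0] x))
      hmeas.aestronglyMeasurable
    rw [(iter_mp hT (sn 0)).map_eq] at h2
    rw [h2]
    refine integral_congr_ae (Eventually.of_forall fun x => ?_)
    simp only [Finset.prod_range]
    refine Finset.prod_congr rfl fun i _ => ?_
    rw [← Function.iterate_add_apply, hff i]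
    have h1 : sn 0 ≤ sn i := hmono (Nat.zero_le _)
    have h2 : sn i - sn 0 + sn 0 = s n i := by rw [← hsn i]; omega
    rw [h2]
  rw [e1] at hm
  exact hm

theorem mixK_of_acorr {μ : Measure X} [IsProbabilityMeasure μ] {T : X ≃ᵐ X}
    (hT : MeasurePreserving T μ μ) (hmix : MixK μ T 1) (k : ℕ)
    (h : ∀ r, 2 ≤ r → r ≤ k → ACorr μ T r) : MixK μ T k := by
  induction k with
  | zero =>
    intro A _ ε hε
    refine ⟨0, fun m _ => ?_⟩
    simpa using hε
  | succ k ih =>
    rcases Nat.eq_zero_or_pos k with rfl | hk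
    · exact hmix
    · have hfact := factSet_of_mixK hT (ih fun r h1 h2 => h r h1 (by omega))
      exact mixK_of_factSet (factSet_of_fun (critA hk hT hfact fun s hs f hf hac =>
        spread_of_acorr hT (h (k + 1) (by omega) le_rfl) s hs f hf hac))

theorem mixK_mono {μ : Measure X} [IsProbabilityMeasure μ] {T : X ≃ᵐ X} {r k : ℕ} (hrk : r ≤ k)
    (h : MixK μ T k) : MixK μ T r := by
  induction hrk with
  | refl => exact h
  | step _ ih => exact ih (Pool.Agent.Y93.HM.mixOn_pred (μ := μ) (T := T) h)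

end Pool.Agent.Y476.RM
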