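import Pool.Agent.Y476.RM.Stm

/-!
# Rigidity passes to absolutely continuous measures
-/

set_option autoImplicit false
open MeasureTheory Filter Topology
open scoped ENNReal

namespace Pool.Agent.Y476.RM

theorem TD.mono {G : Type} [TopologicalSpace G] [Add G] [MeasurableSpace G] {θ : Measure G} {s : G}
    {ε ε' : ℝ} (h : TD θ s ε) (hε : ε ≤ ε') : TD θ s ε' :=
  fun φ hφ => (h φ hφ).trans hε

theorem int_cont {G : Type} [TopologicalSpace G] [CompactSpace G] [MeasurableSpace G]
    [BorelSpace G] (θ : Measure G) [IsFiniteMeasure θ] (φ : C(G, ℝ)) :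
    Integrable (fun x => φ x) θ := by
  refine Integrable.of_bound φ.continuous.measurable.aestronglyMeasurable ‖φ‖
    (Eventually.of_forall fun x => φ.norm_coe_le_norm x)

/-- test functions with a bound `M`. -/
theorem TD.scale {G : Type} [TopologicalSpace G] [CompactSpace G] [Add G] [MeasurableSpace G]
    {θ : Measure G} {s : G} {ε : ℝ} (h : TD θ s ε) {M : ℝ} (hM : 0 < M) (φ : C(G, ℝ))
    (hφ : ∀ x, |φ x| ≤ M) : |∫ x, φ (x + s) ∂θ - ∫ x, φ x ∂θ| ≤ M * ε := by
  have h1 := h (M⁻¹ • φ) (fun x => by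
    rw [ContinuousMap.smul_apply, smul_eq_mul, abs_mul, abs_of_pos (inv_pos.2 hM)]
    rw [inv_mul_le_iff₀ hM]
    simpa using hφ x)
  simp only [ContinuousMap.smul_apply, smul_eq_mul, integral_const_mul] at h1
  rw [← mul_sub, abs_mul, abs_of_pos (inv_pos.2 hM), inv_mul_le_iff₀ hM] at h1
  exact h1

theorem r1 : S_R1 := by
  intro G _ _ _ _ ι l s θ θ' _ _ hrig hs hac ε hε
  -- density
  set g : G → ℝ := fun x => (θ'.rnDeriv θ x).toReal with hg
  have hgi : Integrable g θ := Measure.integrable_toReal_rnDeriv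
  have hint : ∀ φ : G → ℝ, ∫ x, φ x ∂θ' = ∫ x, g x * φ x ∂θ := by
    intro φ
    rw [← integral_rnDeriv_smul hac]
    rfl
  obtain ⟨c, hc1, hc2⟩ := hgi.exists_boundedContinuous_integral_sub_le
    (show (0 : ℝ) < ε / 6 by positivity)
  set cc : C(G, ℝ) := c.toContinuousMap with hcc
  have hcc' : ∀ x, cc x = c x := fun x => rfl
  set M : ℝ := ‖cc‖ + 1 with hM
  have hMpos : 0 < M := by positivity
  have huc : UniformContinuous cc := CompactSpace.uniformContinuous_of_continuous cc.continuous
  set D : ℝ := θ.real Set.univ + 1 with hD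
  have hDpos : 0 < D := by positivity
  rw [Metric.uniformContinuous_iff] at huc
  obtain ⟨δ, hδ, huc⟩ := huc (ε / (6 * D)) (by positivity)
  have hsmall : ∀ᶠ i in l, ‖s i‖ < δ := by
    have := hs.eventually (Metric.ball_mem_nhds (0 : G) hδ)
    filter_upwards [this] with i hi
    simpa [dist_zero_right] using hi
  have hgi' : ∀ t : G, ∀ φ : C(G, ℝ), Integrable (fun x => g x * φ (x + t)) θ := by
    intro t φ
    have : Integrable (fun x => φ (x + t) * g x) θ := by
      refine hgi.bdd_mul (c := ‖φ‖) ?_ (Eventually.of_forall fun x => ?_)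
      · exact (φ.continuous.comp (continuous_id.add continuous_const)).measurable.aestronglyMeasurable
      · exact φ.norm_coe_le_norm _
    simpa only [mul_comm] using this
  filter_upwards [hrig (ε / (6 * M)) (by positivity), hsmall] with i hi1 hi2
  intro φ hφ
  have key : ∀ t : G, |∫ x, φ (x + t) ∂θ' - ∫ x, cc x * φ (x + t) ∂θ| ≤ ε / 6 := by
    intro t
    rw [hint (fun x => φ (x + t)), ← integral_sub (hgi' t φ)]
    · calc |∫ x, (g x * φ (x + t) - cc x * φ (x + t)) ∂θ|
          ≤ ∫ x, ‖g x * φ (x + t) - cc x * φ (x + t)‖ ∂θ := by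
            rw [← Real.norm_eq_abs]
            exact norm_integral_le_integral_norm _
        _ ≤ ∫ x, ‖g x - c x‖ ∂θ := by
            refine integral_mono_of_nonneg (Eventually.of_forall fun x => norm_nonneg _)
              (hgi.sub hc2).norm (Eventually.of_forall fun x => ?_)
            show ‖g x * φ (x + t) - cc x * φ (x + t)‖ ≤ ‖g x - c x‖
            rw [← sub_mul, norm_mul]
            exact mul_le_of_le_one_right (norm_nonneg _) (hφ _)
        _ ≤ ε / 6 := hc1
    · have := int_cont θ (cc * (φ.comp ⟨fun x => x + t, continuous_id.add continuous_const⟩))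
      exact this
  have h1 := key (s i)
  have h2 := key 0
  simp only [add_zero] at h2
  -- the main term
  have h3 : |∫ x, cc x * φ (x + s i) ∂θ - ∫ x, cc x * φ x ∂θ| ≤ ε / 6 + ε / 6 := by
    have h4 := TD.scale hi1 hMpos (cc * φ) (fun x => by
      rw [ContinuousMap.mul_apply, abs_mul]
      calc |cc x| * |φ x| ≤ ‖cc‖ * 1 :=
            mul_le_mul (cc.norm_coe_le_norm x) (hφ x) (abs_nonneg _) (norm_nonneg _)
        _ ≤ M := by rw [hM]; linarith)
    simp only [ContinuousMap.mul_apply] at h4
    have h5 : M * (ε / (6 * M)) = ε / 6 := by field_simp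
    rw [h5] at h4
    have h6 : |∫ x, cc x * φ (x + s i) ∂θ - ∫ x, cc (x + s i) * φ (x + s i) ∂θ| ≤ ε / 6 := by
      have i1 : Integrable (fun x => cc x * φ (x + s i)) θ :=
        int_cont θ (cc * (φ.comp ⟨fun x => x + s i, continuous_id.add continuous_const⟩))
      have i2 : Integrable (fun x => cc (x + s i) * φ (x + s i)) θ :=
        int_cont θ ((cc * φ).comp ⟨fun x => x + s i, continuous_id.add continuous_const⟩)
      rw [← integral_sub i1 i2]
      have : ‖∫ x, (cc x * φ (x + s i) - cc (x + s i) * φ (x + s i)) ∂θ‖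
          ≤ (ε / (6 * D)) * θ.real Set.univ := by
        refine norm_integral_le_of_norm_le_const (Eventually.of_forall fun x => ?_)
        rw [← sub_mul, norm_mul]
        have h7 : dist (cc x) (cc (x + s i)) < ε / (6 * D) := by
          apply huc
          rw [dist_comm, dist_eq_norm]
          simpa using hi2
        rw [dist_eq_norm] at h7
        calc ‖cc x - cc (x + s i)‖ * ‖φ (x + s i)‖ ≤ (ε / (6 * D)) * 1 :=
              mul_le_mul h7.le (hφ _) (norm_nonneg _) (by positivity)
          _ = ε / (6 * D) := mul_one _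
      rw [Real.norm_eq_abs] at this
      refine this.trans ?_
      have h8 : θ.real Set.univ ≤ D := by rw [hD]; linarith
      calc (ε / (6 * D)) * θ.real Set.univ ≤ (ε / (6 * D)) * D :=
            mul_le_mul_of_nonneg_left h8 (by positivity)
        _ = ε / 6 := by field_simp
    calc |∫ x, cc x * φ (x + s i) ∂θ - ∫ x, cc x * φ x ∂θ|
        = |(∫ x, cc x * φ (x + s i) ∂θ - ∫ x, cc (x + s i) * φ (x + s i) ∂θ)
          + (∫ x, cc (x + s i) * φ (x + s i) ∂θ - ∫ x, cc x * φ x ∂θ)| := by ring_nf
      _ ≤ _ := (abs_add_le _ _).trans (add_le_add h6 h4)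
  rw [abs_le] at h1 h2 h3 ⊢
  constructor <;> linarith [h1.1, h1.2, h2.1, h2.2, h3.1, h3.2]

end Pool.Agent.Y476.RM
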