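import Pool.Agent.Y476.RM.Stm

/-!
# Statement of the comparison of conditional laws
-/

set_option autoImplicit false
open MeasureTheory Filter Topology
open scoped ENNReal

namespace Pool.Agent.Y476.RM

/-- Small translations in `A - A` do not move the law of the second coordinate much. -/
def S_BETA : Prop := ∀ (P : Measure (TT × TT)) [IsFiniteMeasure P] (f h : TT → TT → ℝ≥0∞),
    Measurable (Function.uncurry f) → Measurable (Function.uncurry h) →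
    P = ((P.map Prod.fst).prod (P.map Prod.snd)).withDensity (Function.uncurry f) →
    P.map (fun p => (p.1, zz p)) =
      ((P.map Prod.fst).prod (P.map zz)).withDensity (Function.uncurry h) →
    (∀ᵐ x ∂(P.map Prod.fst), ((P.map Prod.snd).withDensity (f x)).map (fun y => -x - y)
      = (P.map zz).withDensity (h x)) →
    (∀ B C : Set TT, MeasurableSet B → MeasurableSet C → (∀ᵐ p ∂P, p.2 ∈ B ↔ zz p ∈ C) →
      P (Prod.snd ⁻¹' B) = 0 ∨ P (Prod.snd ⁻¹' Bᶜ) = 0) →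
    ∀ (A : Set TT) (c : ℝ≥0∞), 0 < c →
    (∀ x ∈ A, ((P.map Prod.snd).withDensity (f x)).map (fun y => -x - y)
      = (P.map zz).withDensity (h x)) →
    (∀ x ∈ A, c ≤ ∫⁻ y, f x y ∂(P.map Prod.snd) ∧ ∫⁻ y, f x y ∂(P.map Prod.snd) ≠ ∞) →
    (∀ ε : ℝ, 0 < ε → ∃ η : ℝ, 0 < η ∧ ∀ x ∈ A, ∀ x' ∈ A, dist x x' < η →
      ∫ y, |(f x y).toReal - (f x' y).toReal| ∂(P.map Prod.snd) ≤ ε) →
    (∀ ε : ℝ, 0 < ε → ∃ η : ℝ, 0 < η ∧ ∀ x ∈ A, ∀ x' ∈ A, dist x x' < η →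
      ∫ y, |(h x y).toReal - (h x' y).toReal| ∂(P.map zz) ≤ ε) →
    ∀ ε : ℝ, 0 < ε → ∃ η : ℝ, 0 < η ∧ ∀ x ∈ A, ∀ x' ∈ A, ‖x - x'‖ < η →
      TD (P.map Prod.snd) (x - x') ε

end Pool.Agent.Y476.RM
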