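import Pool.Agent.Y476.RM.Core6
import Pool.Agent.Y476.RM.R1
import Pool.Agent.Y476.RM.Stm3
import Pool.Agent.Y969.HM.Max
import Pool.Agent.Y448.HM.Atom
import Pool.Agent.Y661.HM.Dis
import Pool.Agent.Y353.HM.Lusin
import Pool.Agent.Y25.HM.Close
import Pool.Agent.Y239.HM.F4
import Pool.Agent.Y290.HM.Uniq
import Pool.Agent.Y290.HM.Riesz
import Pool.Agent.Y43.HM.Ahl
import Pool.Agent.Y31.HM.Beta
import Pool.Agent.Y924.HM.Ghl
import Pool.Agent.Y108.HM.Wien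
import Pool.Agent.Y759.HM.Conv
import Pool.Agent.Y759.HM.QF
import Pool.Agent.Y93.HM.Main

/-!
# Assembly
-/

set_option autoImplicit false
open MeasureTheory Filter Topology
open scoped ENNReal

namespace Pool.Agent.Y476.RM

universe u

theorem maxRig : S_MAX := Pool.Agent.Y969.HM.Max.t r1

theorem ghl : S_GHL :=
  Pool.Agent.Y924.HM.t Pool.Agent.Y448.HM.t Pool.Agent.Y661.HM.Dis.t Pool.Agent.Y353.HM.t
    (Pool.Agent.Y31.HM.t r1 maxRig) (Pool.Agent.Y239.HM.t r1) Pool.Agent.Y25.HM.t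

theorem ahl : S_AHL :=
  Pool.Agent.Y43.HM.Ahl.t ghl Pool.Agent.Y290.HM.Riesz.t Pool.Agent.Y290.HM.Uniq.t

theorem core_final : S_CORE.{u} :=
  core Pool.Agent.Y759.HM.t_qf Pool.Agent.Y108.HM.t Pool.Agent.Y759.HM.t_conv
    Pool.Agent.Y759.HM.t_dens ahl Pool.Agent.Y941.HM.t

theorem main_final : S_MAIN.{u} := Pool.Agent.Y93.HM.t core_final

end Pool.Agent.Y476.RM
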