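import Pool.Agent.H716R2.MixK
import Pool.Agent.Y476.RM.Stm

/-!
# Koopman operator, integer iterates and classes of bounded functions
-/

set_option autoImplicit false
open MeasureTheory Filter Topology
open scoped ENNReal

namespace Pool.Agent.Y476.RM

open Pool.Agent.H716R2

variable {X : Type*} [MeasurableSpace X]

/-- bounded measurable functions -/
def BM (f : X → ℂ) : Prop := Measurable f ∧ ∃ C : ℝ, ∀ x, ‖f x‖ ≤ C

theorem BM.memLp {f : X → ℂ} (h : BM f) (μ : Measure X) [IsFiniteMeasure μ] (p : ℝ≥0∞) :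
    MemLp f p μ := by
  obtain ⟨C, hC⟩ := h.2
  exact MemLp.of_bound h.1.aestronglyMeasurable C (Eventually.of_forall hC)

theorem BM.integrable {f : X → ℂ} (h : BM f) (μ : Measure X) [IsFiniteMeasure μ] :
    Integrable f μ := (h.memLp μ 1).integrable le_rfl

theorem BM.mul {f g : X → ℂ} (hf : BM f) (hg : BM g) : BM (fun x => f x * g x) := by
  obtain ⟨C, hC⟩ := hf.2
  obtain ⟨D, hD⟩ := hg.2
  refine ⟨hf.1.mul hg.1, |C| * |D|, fun x => ?_⟩
  rw [norm_mul]
  exact mul_le_mul ((hC x).trans (le_abs_self _)) ((hD x).trans (le_abs_self _)) (norm_nonneg _)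
    (abs_nonneg _)

theorem BM.conj {f : X → ℂ} (hf : BM f) : BM (fun x => (starRingEnd ℂ) (f x)) := by
  obtain ⟨C, hC⟩ := hf.2
  refine ⟨Complex.continuous_conj.measurable.comp hf.1, C, fun x => ?_⟩
  rw [RCLike.norm_conj]
  exact hC x

theorem BM.add {f g : X → ℂ} (hf : BM f) (hg : BM g) : BM (fun x => f x + g x) := by
  obtain ⟨C, hC⟩ := hf.2
  obtain ⟨D, hD⟩ := hg.2
  exact ⟨hf.1.add hg.1, C + D, fun x => (norm_add_le _ _).trans (add_le_add (hC x) (hD x))⟩

theorem BM.const (c : ℂ) : BM (fun _ : X => c) := ⟨measurable_const, ‖c‖, fun _ => le_rfl⟩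

theorem BM.smul {f : X → ℂ} (c : ℂ) (hf : BM f) : BM (fun x => c * f x) := (BM.const c).mul hf

theorem BM.sum {ι : Type*} (S : Finset ι) {f : ι → X → ℂ} (hf : ∀ i, BM (f i)) :
    BM (fun x => ∑ i ∈ S, f i x) := by
  classical
  induction S using Finset.induction_on with
  | empty => simpa using BM.const (X := X) 0
  | insert a s ha ih =>
    simp only [Finset.sum_insert ha]
    exact (hf a).add ih

theorem BM.prod {ι : Type*} (S : Finset ι) {f : ι → X → ℂ} (hf : ∀ i, BM (f i)) :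
    BM (fun x => ∏ i ∈ S, f i x) := by
  classical
  induction S using Finset.induction_on with
  | empty => simpa using BM.const (X := X) 1
  | insert a s ha ih =>
    simp only [Finset.prod_insert ha]
    exact (hf a).mul ih

theorem BM.comp {f : X → ℂ} (hf : BM f) {g : X → X} (hg : Measurable g) : BM (fun x => f (g x)) :=
  ⟨hf.1.comp hg, hf.2.imp fun _ h x => h _⟩

/-- the class of a bounded function -/
noncomputable def cl (μ : Measure X) [IsFiniteMeasure μ] (f : X → ℂ) (hf : BM f) : Lp ℂ 2 μ :=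
  (hf.memLp μ 2).toLp f

theorem cl_ae (μ : Measure X) [IsFiniteMeasure μ] {f : X → ℂ} (hf : BM f) : cl μ f hf =ᵐ[μ] f :=
  MemLp.coeFn_toLp _

theorem cl_inner (μ : Measure X) [IsFiniteMeasure μ] {f g : X → ℂ} (hf : BM f) (hg : BM g) :
    inner ℂ (cl μ f hf) (cl μ g hg) = ∫ x, g x * (starRingEnd ℂ) (f x) ∂μ := by
  rw [L2.inner_def]
  refine integral_congr_ae ?_
  filter_upwards [cl_ae μ hf, cl_ae μ hg] with x h1 h2
  rw [h1, h2, RCLike.inner_apply]

theorem cl_inner_left (μ : Measure X) [IsFiniteMeasure μ] {g : X → ℂ} (h : Lp ℂ 2 μ) (hg : BM g) :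
    inner ℂ h (cl μ g hg) = ∫ x, g x * (starRingEnd ℂ) (h x) ∂μ := by
  rw [L2.inner_def]
  refine integral_congr_ae ?_
  filter_upwards [cl_ae μ hg] with x h2
  rw [h2, RCLike.inner_apply]

theorem cl_norm_sq (μ : Measure X) [IsFiniteMeasure μ] {f : X → ℂ} (hf : BM f) :
    ‖cl μ f hf‖ ^ 2 = ∫ x, ‖f x‖ ^ 2 ∂μ := by
  have h1 := inner_self_eq_norm_sq_to_K (𝕜 := ℂ) (cl μ f hf)
  rw [cl_inner] at h1
  have h2 : ∫ x, f x * (starRingEnd ℂ) (f x) ∂μ = ((∫ x, ‖f x‖ ^ 2 ∂μ : ℝ) : ℂ) := by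
    rw [← integral_complex_ofReal]
    refine integral_congr_ae (Eventually.of_forall fun x => ?_)
    show f x * (starRingEnd ℂ) (f x) = ((‖f x‖ ^ 2 : ℝ) : ℂ)
    rw [Complex.mul_conj, Complex.normSq_eq_norm_sq]
  rw [h2] at h1
  have h3 : ((∫ x, ‖f x‖ ^ 2 ∂μ : ℝ) : ℂ) = ((‖cl μ f hf‖ ^ 2 : ℝ) : ℂ) := by
    rw [h1]
    push_cast
    rfl
  exact (Complex.ofReal_injective h3).symm

theorem cl_congr (μ : Measure X) [IsFiniteMeasure μ] {f g : X → ℂ} (hf : BM f) (hg : BM g)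
    (h : f =ᵐ[μ] g) : cl μ f hf = cl μ g hg := by
  unfold cl
  exact (MemLp.toLp_eq_toLp_iff _ _).2 h

/-- the integer iterates -/
def Ti (T : X ≃ᵐ X) (a : ℤ) : X → X := ⇑((T.toEquiv : Equiv.Perm X) ^ a)

theorem Ti_zero (T : X ≃ᵐ X) (x : X) : Ti T 0 x = x := by simp [Ti]

theorem Ti_add (T : X ≃ᵐ X) (a b : ℤ) (x : X) : Ti T (a + b) x = Ti T a (Ti T b x) := by
  simp [Ti, zpow_add]

theorem Ti_nat (T : X ≃ᵐ X) (n : ℕ) (x : X) : Ti T n x = (⇑T)^[n] x := by
  unfold Ti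
  rw [zpow_natCast, ← Equiv.Perm.iterate_eq_pow]
  rfl

theorem Ti_one (T : X ≃ᵐ X) (x : X) : Ti T 1 x = T x := by
  unfold Ti
  rw [zpow_one]
  rfl

theorem Ti_neg_one (T : X ≃ᵐ X) (x : X) : Ti T (-1) x = T.symm x := by
  unfold Ti
  rw [zpow_neg, zpow_one]
  rfl

theorem Ti_mp {μ : Measure X} (T : X ≃ᵐ X) (hT : MeasurePreserving T μ μ) (a : ℤ) :
    MeasurePreserving (Ti T a) μ μ := by
  induction a with
  | zero =>
    have : Ti T 0 = id := by ext x; exact Ti_zero T x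
    rw [this]
    exact MeasurePreserving.id μ
  | succ n ih =>
    have : Ti T ((n : ℤ) + 1) = Ti T n ∘ T := by
      ext x
      rw [Ti_add, Ti_one]
      rfl
    rw [this]
    exact ih.comp hT
  | pred n ih =>
    have : Ti T (-(n : ℤ) - 1) = Ti T (-n) ∘ T.symm := by
      ext x
      rw [sub_eq_add_neg, Ti_add, Ti_neg_one]
      rfl
    rw [this]
    exact ih.comp (hT.symm T)

theorem Ti_meas (T : X ≃ᵐ X) (a : ℤ) : Measurable (Ti T a) := by
  induction a with
  | zero =>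
    have : Ti T 0 = id := by ext x; exact Ti_zero T x
    rw [this]
    exact measurable_id
  | succ n ih =>
    have : Ti T ((n : ℤ) + 1) = Ti T n ∘ T := by
      ext x
      rw [Ti_add, Ti_one]
      rfl
    rw [this]
    exact ih.comp T.measurable
  | pred n ih =>
    have : Ti T (-(n : ℤ) - 1) = Ti T (-n) ∘ T.symm := by
      ext x
      rw [sub_eq_add_neg, Ti_add, Ti_neg_one]
      rfl
    rw [this]
    exact ih.comp T.symm.measurable

theorem Ti_iter (T : X ≃ᵐ X) (n : ℕ) (a : ℤ) (x : X) :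
    (⇑T)^[n] (Ti T a x) = Ti T a ((⇑T)^[n] x) := by
  rw [← Ti_nat, ← Ti_nat, ← Ti_add, ← Ti_add, add_comm]

theorem int_Ti {μ : Measure X} (T : X ≃ᵐ X) (hT : MeasurePreserving T μ μ) (a : ℤ) {f : X → ℂ}
    (hf : Measurable f) : ∫ x, f (Ti T a x) ∂μ = ∫ x, f x ∂μ := by
  rw [← integral_map (φ := Ti T a) (Ti_meas T a).aemeasurable hf.aestronglyMeasurable,
    (Ti_mp T hT a).map_eq]

section Koopman

variable {μ : Measure X}

/-- the Koopman operator `h ↦ h ∘ T` -/
noncomputable def U (T : X ≃ᵐ X) (hT : MeasurePreserving T μ μ) : Lp ℂ 2 μ ≃ₗᵢ[ℂ] Lp ℂ 2 μ :=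
  LinearIsometryEquiv.ofSurjective
    (Lp.compMeasurePreservingₗᵢ (E := ℂ) (p := 2) ℂ T hT) (by
      intro h
      refine ⟨Lp.compMeasurePreserving T.symm (hT.symm T) h, ?_⟩
      show Lp.compMeasurePreserving T hT (Lp.compMeasurePreserving T.symm (hT.symm T) h) = h
      rw [← Lp.compMeasurePreserving_comp_apply]
      have h1 : (T.symm : X → X) ∘ T = id := by ext x; simp
      have h2 : ∀ (F : X → X) (hF : MeasurePreserving F μ μ), F = id →
          Lp.compMeasurePreserving F hF h = h := by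
        rintro F hF rfl
        exact Lp.compMeasurePreserving_id_apply h
      exact h2 _ _ h1)

theorem U_apply (T : X ≃ᵐ X) (hT : MeasurePreserving T μ μ) (h : Lp ℂ 2 μ) :
    U T hT h = Lp.compMeasurePreserving T hT h := rfl

variable [IsFiniteMeasure μ]

theorem U_cl (T : X ≃ᵐ X) (hT : MeasurePreserving T μ μ) {f : X → ℂ} (hf : BM f) :
    U T hT (cl μ f hf) = cl μ (fun x => f (T x)) (hf.comp T.measurable) := by
  rw [U_apply]
  exact Lp.toLp_compMeasurePreserving (hf.memLp μ 2) hT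

theorem U_inv_cl (T : X ≃ᵐ X) (hT : MeasurePreserving T μ μ) {f : X → ℂ} (hf : BM f) :
    (U T hT)⁻¹ (cl μ f hf) = cl μ (fun x => f (T.symm x)) (hf.comp T.symm.measurable) := by
  have h1 : cl μ f hf = U T hT (cl μ (fun x => f (T.symm x)) (hf.comp T.symm.measurable)) := by
    rw [U_cl]
    apply cl_congr
    exact Eventually.of_forall fun x => by simp
  conv_lhs => rw [h1]
  exact (U T hT).symm_apply_apply _

theorem U_zpow_cl (T : X ≃ᵐ X) (hT : MeasurePreserving T μ μ) {f : X → ℂ} (hf : BM f) (a : ℤ) :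
    ((U T hT) ^ a) (cl μ f hf) = cl μ (fun x => f (Ti T a x)) (hf.comp (Ti_meas T a)) := by
  induction a with
  | zero =>
    rw [zpow_zero]
    show cl μ f hf = _
    apply cl_congr
    exact Eventually.of_forall fun x => by simp [Ti_zero]
  | succ n ih =>
    rw [zpow_add, zpow_one, show ((U T hT) ^ (n : ℤ) * U T hT) (cl μ f hf)
      = ((U T hT) * (U T hT) ^ (n : ℤ)) (cl μ f hf) by rw [← zpow_add_one, ← zpow_one_add, add_comm]]
    show (U T hT) (((U T hT) ^ (n : ℤ)) (cl μ f hf)) = _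
    rw [ih, U_cl]
    apply cl_congr
    exact Eventually.of_forall fun x => by simp only [Ti_add, Ti_one]
  | pred n ih =>
    rw [show ((U T hT) ^ (-(n : ℤ) - 1)) = (U T hT)⁻¹ * (U T hT) ^ (-(n : ℤ)) by
      rw [← zpow_neg_one, ← zpow_add]; congr 1; ring]
    show (U T hT)⁻¹ (((U T hT) ^ (-(n : ℤ))) (cl μ f hf)) = _
    rw [ih, U_inv_cl]
    apply cl_congr
    exact Eventually.of_forall fun x => by
      simp only [sub_eq_add_neg, Ti_add, Ti_neg_one]

/-- the correlation sequence -/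
noncomputable def gam (μ : Measure X) (T : X ≃ᵐ X) (f : X → ℂ) (n : ℤ) : ℂ :=
  ∫ x, f (Ti T n x) * (starRingEnd ℂ) (f x) ∂μ

theorem gam_inner (T : X ≃ᵐ X) (hT : MeasurePreserving T μ μ) {f : X → ℂ} (hf : BM f) (a : ℤ) :
    inner ℂ (cl μ f hf) (((U T hT) ^ a) (cl μ f hf)) = gam μ T f a := by
  rw [U_zpow_cl, cl_inner]
  rfl

theorem corr_shift (T : X ≃ᵐ X) (hT : MeasurePreserving T μ μ) {f : X → ℂ} (hf : BM f) (a b : ℤ) :
    ∫ x, f (Ti T a x) * (starRingEnd ℂ) (f (Ti T b x)) ∂μ = gam μ T f (a - b) := by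
  unfold gam
  rw [← int_Ti T hT b (f := fun x => f (Ti T (a - b) x) * (starRingEnd ℂ) (f x))
    ((hf.comp (Ti_meas T _)).1.mul hf.conj.1)]
  refine integral_congr_ae (Eventually.of_forall fun x => ?_)
  simp only
  rw [← Ti_add, sub_add_cancel]

end Koopman

end Pool.Agent.Y476.RM
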